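import Pool.Agent.H725R3.KRW.Model2

set_option autoImplicit false
open scoped ENNReal NNReal Topology
open Filter Set

namespace Pool.Agent.H725R3.KRW

theorem l1_sym : IsSymNorm l1 where
  pos v hv := by
    unfold l1
    by_contra h
    push Not at h
    have h0 := abs_nonneg (v 0)
    have h1 := abs_nonneg (v 1)
    apply hv
    funext i
    have e0 : v 0 = 0 := abs_eq_zero.1 (by linarith)
    have e1 : v 1 = 0 := abs_eq_zero.1 (by linarith)
    fin_cases i
    · exact e0
    · exact e1
  smul a v := by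
    unfold l1
    simp only [Pi.smul_apply, smul_eq_mul, abs_mul]
    ring
  add v v' := by
    unfold l1
    have h0 := abs_add_le (v 0) (v' 0)
    have h1 := abs_add_le (v 1) (v' 1)
    simp only [Pi.add_apply]
    linarith
  perm σ v := by
    have h : ∀ w : Vec 2, l1 w = ∑ i, |w i| := fun w => by rw [Fin.sum_univ_two]; rfl
    rw [h, h]
    exact Equiv.sum_comp σ (fun i => |v i|)
  refl e he v := by
    unfold l1
    have h : ∀ i, |e i * v i| = |v i| := by
      intro i
      rw [abs_mul]
      rcases he i with h | h <;> rw [h] <;> simp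
    rw [h, h]

theorem tendsto_l1 : Tendsto (fun y : Site 2 => l1 (toVec y)) cofinite atTop := by
  rw [tendsto_atTop]
  intro M
  obtain ⟨m, hm⟩ := exists_nat_gt M
  have hfin : (Set.Icc (fun _ => -(m : ℤ)) (fun _ => (m : ℤ)) : Set (Site 2)).Finite :=
    Set.finite_Icc _ _
  refine hfin.subset ?_
  intro y hy
  have hy' : l1 (toVec y) < M := not_le.1 hy
  unfold l1 toVec at hy'
  have h0 := abs_nonneg ((y 0 : ℤ) : ℝ)
  have h1 := abs_nonneg ((y 1 : ℤ) : ℝ)
  have hb : ∀ i, |((y i : ℤ) : ℝ)| ≤ m := by
    intro i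
    fin_cases i
    · show |((y 0 : ℤ) : ℝ)| ≤ m
      linarith
    · show |((y 1 : ℤ) : ℝ)| ≤ m
      linarith
  rw [Set.mem_Icc]
  constructor
  · intro i
    have := (abs_le.1 (hb i)).1
    exact_mod_cast this
  · intro i
    have := (abs_le.1 (hb i)).2
    exact_mod_cast this

theorem log_fdec (k : ℤ) : Real.log (fdec k) = -(4 * Real.log (1 + |(k : ℝ)|)) := by
  unfold fdec
  rw [one_div, Real.log_inv, Real.log_pow]
  norm_num

theorem psi_subexp : Tendsto (fun y : Site 2 => Real.log (psi y) / l1 (toVec y)) cofinite (𝓝 0) := by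
  have hg : Tendsto (fun t : ℝ => (|Real.log cc| + 8 * Real.log (1 + t)) / t) atTop (𝓝 0) := by
    have h1 : Tendsto (fun t : ℝ => Real.log (1 + t) / t) atTop (𝓝 0) := by
      have h2 : Tendsto (fun t : ℝ => Real.log (1 + t) / (1 + t)) atTop (𝓝 0) := by
        have h3 := (Real.isLittleO_log_id_atTop).tendsto_div_nhds_zero
        exact h3.comp (tendsto_atTop_add_const_left _ 1 tendsto_id)
      have h4 : Tendsto (fun t : ℝ => (1 + t) / t) atTop (𝓝 1) := by
        have h5 : Tendsto (fun t : ℝ => t⁻¹ + 1) atTop (𝓝 (0 + 1)) :=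
          tendsto_inv_atTop_zero.add_const 1
        rw [zero_add] at h5
        refine h5.congr' ?_
        filter_upwards [eventually_gt_atTop 0] with t ht
        field_simp
      have h6 := h2.mul h4
      rw [zero_mul] at h6
      refine h6.congr' ?_
      filter_upwards [eventually_gt_atTop 0] with t ht
      have : (1 + t) ≠ 0 := by linarith
      field_simp
    have h2 : Tendsto (fun t : ℝ => |Real.log cc| / t) atTop (𝓝 0) :=
      tendsto_const_nhds.div_atTop tendsto_id
    have h3 := h2.add (h1.const_mul 8)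
    rw [mul_zero, add_zero] at h3
    refine h3.congr fun t => ?_
    ring
  have hg' := hg.comp tendsto_l1
  refine squeeze_zero_norm' ?_ hg'
  refine Eventually.of_forall fun y => ?_
  simp only [Function.comp]
  have hl : 0 ≤ l1 (toVec y) := by unfold l1; positivity
  rw [Real.norm_eq_abs, abs_div, abs_of_nonneg hl]
  refine div_le_div_of_nonneg_right ?_ hl
  have e1 : Real.log (psi y) = Real.log cc + (-(4 * Real.log (1 + |((y 0 : ℤ) : ℝ)|)) +
      -(4 * Real.log (1 + |((y 1 : ℤ) : ℝ)|))) := by
    unfold psi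
    rw [Real.log_mul cc_pos.ne' (mul_pos (fdec_pos _) (fdec_pos _)).ne',
      Real.log_mul (fdec_pos _).ne' (fdec_pos _).ne', log_fdec, log_fdec]
  have h0 := abs_nonneg ((y 0 : ℤ) : ℝ)
  have h1 := abs_nonneg ((y 1 : ℤ) : ℝ)
  have e2 : Real.log (1 + |((y 0 : ℤ) : ℝ)|) ≤ Real.log (1 + l1 (toVec y)) := by
    refine Real.log_le_log (by linarith) ?_
    unfold l1 toVec
    linarith
  have e3 : Real.log (1 + |((y 1 : ℤ) : ℝ)|) ≤ Real.log (1 + l1 (toVec y)) := by
    refine Real.log_le_log (by linarith) ?_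
    unfold l1 toVec
    linarith
  have e4 : 0 ≤ Real.log (1 + |((y 0 : ℤ) : ℝ)|) := Real.log_nonneg (by linarith)
  have e5 : 0 ≤ Real.log (1 + |((y 1 : ℤ) : ℝ)|) := Real.log_nonneg (by linarith)
  rw [e1]
  refine (abs_add_le _ _).trans ?_
  have e6 : |(-(4 * Real.log (1 + |((y 0 : ℤ) : ℝ)|)) + -(4 * Real.log (1 + |((y 1 : ℤ) : ℝ)|)))| ≤
      8 * Real.log (1 + l1 (toVec y)) := by
    rw [abs_le]
    constructor <;> linarith
  linarith

theorem psi_prefactor : IsPrefactor l1 psi where
  nonneg y := by
    unfold psi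
    have := cc_pos
    have := fdec_pos (y 0)
    have := fdec_pos (y 1)
    positivity
  pos y _ := by
    unfold psi
    have := cc_pos
    have := fdec_pos (y 0)
    have := fdec_pos (y 1)
    positivity
  subexp := psi_subexp
  perm σ y := by
    unfold psi
    have h : ∀ w : Site 2, fdec (w 0) * fdec (w 1) = ∏ i, fdec (w i) := fun w => by
      rw [Fin.prod_univ_two]
    have h2 := h y
    have h3 := h (fun i => y (σ i))
    rw [h2, h3]
    congr 1
    exact Equiv.prod_comp σ (fun i => fdec (y i))
  refl e he y := by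
    unfold psi
    have h : ∀ i, fdec (e i * y i) = fdec (y i) := by
      intro i
      rcases he i with h | h <;> rw [h]
      · rw [one_mul]
      · rw [neg_one_mul, fdec_neg]
    rw [h, h]
  sum := kern_sum

end Pool.Agent.H725R3.KRW
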