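import Pool.Agent.H725R3.KRW.Walk

set_option autoImplicit false
open scoped ENNReal NNReal Topology
open Filter Set

namespace Pool.Agent.H725R3.KRW

/-- `N` is a norm on `R^d`, invariant under the symmetries of the lattice `Z^d`
(permutations of the coordinates and reflections) -/
structure IsSymNorm {d : ℕ} (N : Vec d → ℝ) : Prop where
  pos : ∀ v, v ≠ 0 → 0 < N v
  smul : ∀ (a : ℝ) (v : Vec d), N (a • v) = |a| * N v
  add : ∀ v v', N (v + v') ≤ N v + N v'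
  perm : ∀ (σ : Equiv.Perm (Fin d)) (v : Vec d), N (fun i => v (σ i)) = N v
  refl : ∀ e : Fin d → ℝ, (∀ i, e i = 1 ∨ e i = -1) → ∀ v : Vec d, N (fun i => e i * v i) = N v

/-- the kernel `J_x = ψ(x) e^{-|x|}` for `x ≠ 0`, `J_0 = 0` -/
noncomputable def kern {d : ℕ} (N : Vec d → ℝ) (ψ : Site d → ℝ) (x : Site d) : ℝ :=
  open Classical in if x = 0 then 0 else ψ x * Real.exp (-N (toVec x))

/-- the conditions on the prefactor `ψ : Z^d → [0,∞)`: positivity off `0`, subexponential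
behaviour `|y|⁻¹ log ψ(y) → 0` as `|y| → ∞`, invariance under the lattice symmetries and the
normalisation `∑_x J_{0x} = 1` -/
structure IsPrefactor {d : ℕ} (N : Vec d → ℝ) (ψ : Site d → ℝ) : Prop where
  nonneg : ∀ y, 0 ≤ ψ y
  pos : ∀ y, y ≠ 0 → 0 < ψ y
  subexp : Tendsto (fun y : Site d => Real.log (ψ y) / N (toVec y)) cofinite (𝓝 0)
  perm : ∀ (σ : Equiv.Perm (Fin d)) (y : Site d), ψ (fun i => y (σ i)) = ψ y
  refl : ∀ e : Fin d → ℤ, (∀ i, e i = 1 ∨ e i = -1) → ∀ y : Site d, ψ (fun i => e i * y i) = ψ y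
  sum : HasSum (kern N ψ) 1

/-- the inverse correlation length `ν_s(λ) = - lim (1/n) log G_λ(0, ns)` -/
noncomputable def nu {d : ℕ} (J : Site d → ℝ) (s : Vec d) (lam : ℝ) : ℝ :=
  limUnder atTop (fun n : ℕ => -(1 / (n : ℝ)) * Real.log (G J lam 0 (latt ((n : ℝ) • s))).toReal)

/-- `λ_c = sup {λ ≥ 0 : ∑_x G_λ(0,x) < ∞}` -/
noncomputable def lamC {d : ℕ} (J : Site d → ℝ) : EReal :=
  sSup ((fun l : ℝ => (l : EReal)) '' {l | 0 ≤ l ∧ ∑' x, G J l 0 x < ∞})

/-- `λ_exp = min (λ_c, inf {λ : inf_s ν_s(λ) = 0})`, the inner infimum being over the Euclidean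
unit sphere -/
noncomputable def lamExp {d : ℕ} (J : Site d → ℝ) : EReal :=
  min (lamC J) (sInf ((fun l : ℝ => (l : EReal)) '' {l | 0 < l ∧ (l : EReal) < lamC J ∧
    ⨅ s : {s : Vec d // ∑ i, s i ^ 2 = 1}, nu J s.1 l = 0}))

/-- `λ_sat(s) = sup {λ : ν_s(λ) = |s|}` (equal to `0` if there is no such `λ > 0`) -/
noncomputable def lamSat {d : ℕ} (N : Vec d → ℝ) (J : Site d → ℝ) (s : Vec d) : EReal :=
  max 0 (sSup ((fun l : ℝ => (l : EReal)) '' {l | 0 < l ∧ (l : EReal) < lamC J ∧ nu J s l = N s}))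

end Pool.Agent.H725R3.KRW
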