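import Pool.Agent.H725R3.KRW.Subadd

set_option autoImplicit false
open scoped ENNReal NNReal Topology
open Filter Set

namespace Pool.Agent.H725R3.KRW

variable {d : ℕ}

theorem tsum_pi_prod (φ : ℤ → ℝ≥0∞) (m : ℕ) :
    ∑' x : Fin m → ℤ, ∏ i, φ (x i) = (∑' k, φ k) ^ m := by
  induction m with
  | zero => simp
  | succ m ih =>
    rw [← (Fin.consEquiv (fun _ : Fin (m + 1) => ℤ)).tsum_eq, ENNReal.tsum_prod']
    simp only [Fin.consEquiv, Equiv.coe_fn_mk, Fin.prod_univ_succ, Fin.cons_zero, Fin.cons_succ]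
    simp_rw [ENNReal.tsum_mul_left, ih]
    rw [ENNReal.tsum_mul_right, pow_succ']

theorem summable_exp_abs {a : ℝ} (ha : 0 < a) :
    Summable (fun k : ℤ => Real.exp (-a * |(k : ℝ)|)) := by
  have h1 : Summable (fun n : ℕ => Real.exp (-a * n)) := by
    have := summable_geometric_of_lt_one (Real.exp_nonneg (-a)) (by
      rw [Real.exp_lt_one_iff]; linarith)
    refine this.congr fun n => ?_
    rw [← Real.exp_nat_mul]
    ring_nf
  refine Summable.of_nat_of_neg_add_one ?_ ?_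
  · simpa using h1
  · have h2 := (summable_nat_add_iff 1).2 h1
    refine h2.congr fun n => ?_
    congr 2
    push_cast
    rw [abs_of_nonpos (by
      have : (0:ℝ) ≤ n := n.cast_nonneg
      linarith)]
    ring

theorem tsum_exp_l1 {a : ℝ} (ha : 0 < a) :
    ∑' x : Site d, ENNReal.ofReal (Real.exp (-a * ∑ i, |(x i : ℝ)|)) ≠ ∞ := by
  have h1 : ∀ x : Site d, ENNReal.ofReal (Real.exp (-a * ∑ i, |(x i : ℝ)|)) =
      ∏ i, ENNReal.ofReal (Real.exp (-a * |(x i : ℝ)|)) := by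
    intro x
    rw [Finset.mul_sum, Real.exp_sum, ENNReal.ofReal_prod_of_nonneg (fun i _ => Real.exp_nonneg _)]
  simp_rw [h1]
  rw [tsum_pi_prod (fun k => ENNReal.ofReal (Real.exp (-a * |(k : ℝ)|)))]
  exact ENNReal.pow_ne_top (summable_exp_abs ha).tsum_ofReal_ne_top

/-- standing hypotheses on the kernel and the parameter -/
structure KHyp (J : Site d → ℝ) (lam : ℝ) : Prop where
  Jpos : ∀ x, x ≠ 0 → 0 < J x
  lam_pos : 0 < lam
  ball : ∃ r > 0, ∃ ρ : ℝ, 0 < ρ ∧ ρ < 1 ∧ ∀ h : Vec d, (∀ i, |h i| ≤ r) →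
    ENNReal.ofReal lam * Jhat J h ≤ ENNReal.ofReal ρ

variable {J : Site d → ℝ} {lam : ℝ}

theorem KHyp.w_le_exp (H : KHyp J lam) : ∃ r > 0, ∃ ρ : ℝ, 0 < ρ ∧ ρ < 1 ∧ ∀ n x,
    w J lam n x ≤ ENNReal.ofReal (ρ ^ n * Real.exp (-r * ∑ i, |(x i : ℝ)|)) := by
  obtain ⟨r, hr, ρ, hρ0, hρ, hb⟩ := H.ball
  refine ⟨r, hr, ρ, hρ0, hρ, fun n x => ?_⟩
  let h : Vec d := fun i => if 0 ≤ (x i : ℝ) then r else -r
  have h1 : ∀ i, |h i| ≤ r := by
    intro i
    simp only [h]
    split_ifs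
    · rw [abs_of_pos hr]
    · rw [abs_neg, abs_of_pos hr]
  have h2 : pair h x = r * ∑ i, |(x i : ℝ)| := by
    unfold pair
    rw [Finset.mul_sum]
    refine Finset.sum_congr rfl fun i _ => ?_
    simp only [h]
    split_ifs with h0
    · rw [abs_of_nonneg h0]
    · rw [abs_of_neg (not_le.1 h0)]
      ring
  have h3 : w J lam n x * ENNReal.ofReal (Real.exp (pair h x)) ≤ ENNReal.ofReal (ρ ^ n) := by
    calc _ ≤ ∑' z, w J lam n z * ENNReal.ofReal (Real.exp (pair h z)) := ENNReal.le_tsum x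
      _ = (ENNReal.ofReal lam * Jhat J h) ^ n := gen_w J H.lam_pos.le h n
      _ ≤ (ENNReal.ofReal ρ) ^ n := pow_le_pow_left' (hb h h1) n
      _ = _ := (ENNReal.ofReal_pow hρ0.le n).symm
  have hp : ENNReal.ofReal (Real.exp (pair h x)) ≠ 0 := by
    simpa using Real.exp_pos _
  have h4 : w J lam n x = w J lam n x * ENNReal.ofReal (Real.exp (pair h x)) *
      ENNReal.ofReal (Real.exp (-pair h x)) := by
    rw [mul_assoc, ← ENNReal.ofReal_mul (Real.exp_nonneg _), ← Real.exp_add, add_neg_cancel,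
      Real.exp_zero, ENNReal.ofReal_one, mul_one]
  rw [h4, ENNReal.ofReal_mul (by positivity), neg_mul, ← h2]
  gcongr

theorem KHyp.w_le_one (H : KHyp J lam) (n : ℕ) (x : Site d) : w J lam n x ≤ 1 := by
  obtain ⟨r, hr, ρ, hρ0, hρ, hb⟩ := H.w_le_exp
  refine (hb n x).trans ?_
  rw [ENNReal.ofReal_le_one]
  have h1 : ρ ^ n ≤ 1 := pow_le_one₀ hρ0.le hρ.le
  have h2 : Real.exp (-r * ∑ i, |(x i : ℝ)|) ≤ 1 := by
    rw [Real.exp_le_one_iff]
    have : 0 ≤ ∑ i, |(x i : ℝ)| := Finset.sum_nonneg fun i _ => abs_nonneg _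
    nlinarith
  calc _ ≤ 1 * 1 := mul_le_mul h1 h2 (Real.exp_nonneg _) zero_le_one
    _ = 1 := one_mul 1

/-- the best `n`-step weight -/
noncomputable def gs (J : Site d → ℝ) (lam : ℝ) (x : Site d) : ℝ≥0∞ := ⨆ n, w J lam n x

/-- the exponent -/
noncomputable def nn (J : Site d → ℝ) (lam : ℝ) (x : Site d) : ℝ :=
  -Real.log (gs J lam x).toReal

theorem gs_super (x y : Site d) : gs J lam x * gs J lam y ≤ gs J lam (x + y) := by
  unfold gs
  rw [ENNReal.iSup_mul]
  refine iSup_le fun n => ?_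
  rw [ENNReal.mul_iSup]
  refine iSup_le fun m => ?_
  exact (w_super J lam n m x y).trans (le_iSup (fun k => w J lam k (x + y)) (n + m))

theorem KHyp.gs_le_one (H : KHyp J lam) (x : Site d) : gs J lam x ≤ 1 :=
  iSup_le fun n => H.w_le_one n x

theorem KHyp.gs_pos (H : KHyp J lam) (x : Site d) : 0 < gs J lam x := by
  by_cases hx : x = 0
  · have : w J lam 0 x ≤ gs J lam x := le_iSup (fun k => w J lam k x) 0
    refine lt_of_lt_of_le ?_ this
    simp [w, hx]
  · have : w J lam 1 x ≤ gs J lam x := le_iSup (fun k => w J lam k x) 1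
    refine lt_of_lt_of_le ?_ this
    rw [w_one]
    simpa using mul_pos H.lam_pos (H.Jpos x hx)

theorem KHyp.gs_ne_top (H : KHyp J lam) (x : Site d) : gs J lam x ≠ ∞ :=
  ne_top_of_le_ne_top ENNReal.one_ne_top (H.gs_le_one x)

theorem KHyp.gs_toReal_pos (H : KHyp J lam) (x : Site d) : 0 < (gs J lam x).toReal :=
  ENNReal.toReal_pos (H.gs_pos x).ne' (H.gs_ne_top x)

theorem KHyp.subAdd (H : KHyp J lam) : SubAdd (nn J lam) where
  zero := by
    have h1 : gs J lam (0 : Site d) = 1 := by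
      refine le_antisymm (H.gs_le_one 0) ?_
      have : w J lam 0 (0 : Site d) ≤ gs J lam 0 := le_iSup (fun k => w J lam k (0 : Site d)) 0
      simpa [w] using this
    simp [nn, h1]
  nonneg x := by
    unfold nn
    have h1 : (gs J lam x).toReal ≤ 1 := by
      have := ENNReal.toReal_mono ENNReal.one_ne_top (H.gs_le_one x)
      simpa using this
    have := Real.log_nonpos (H.gs_toReal_pos x).le h1
    linarith
  add x y := by
    unfold nn
    have h1 := ENNReal.toReal_mono (H.gs_ne_top (x + y)) (gs_super (J := J) (lam := lam) x y)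
    rw [ENNReal.toReal_mul] at h1
    have h2 := Real.log_le_log (mul_pos (H.gs_toReal_pos x) (H.gs_toReal_pos y)) h1
    rw [Real.log_mul (H.gs_toReal_pos x).ne' (H.gs_toReal_pos y).ne'] at h2
    linarith

theorem gs_le_G (x : Site d) : gs J lam x ≤ G J lam 0 x := by
  rw [G_eq, sub_zero]
  exact iSup_le fun n => ENNReal.le_tsum n

theorem G_mul_exp_le (hlam : 0 ≤ lam) (h : Vec d) (x : Site d) :
    G J lam 0 x * ENNReal.ofReal (Real.exp (pair h x)) ≤
      (1 - ENNReal.ofReal lam * Jhat J h)⁻¹ := by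
  rw [← sum_G J hlam h]
  exact ENNReal.le_tsum x

theorem KHyp.G_ne_top (H : KHyp J lam) (x : Site d) : G J lam 0 x ≠ ∞ := by
  obtain ⟨r, hr, ρ, hρ0, hρ, hb⟩ := H.ball
  have h1 := G_mul_exp_le (J := J) H.lam_pos.le (0 : Vec d) x
  have h2 : pair (0 : Vec d) x = 0 := by simp [pair]
  rw [h2, Real.exp_zero, ENNReal.ofReal_one, mul_one] at h1
  refine ne_top_of_le_ne_top ?_ h1
  have h3 := hb 0 (fun i => by simpa using hr.le)
  have h4 : ENNReal.ofReal ρ < 1 := by
    rw [ENNReal.ofReal_lt_one]; exact hρ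
  exact ENNReal.inv_ne_top.2 (tsub_pos_of_lt (lt_of_le_of_lt h3 h4)).ne'

theorem KHyp.G_pos (H : KHyp J lam) (x : Site d) : 0 < G J lam 0 x :=
  lt_of_lt_of_le (H.gs_pos x) (gs_le_G x)

theorem KHyp.G_toReal_pos (H : KHyp J lam) (x : Site d) : 0 < (G J lam 0 x).toReal :=
  ENNReal.toReal_pos (H.G_pos x).ne' (H.G_ne_top x)

theorem KHyp.logG_le (H : KHyp J lam) (x : Site d) :
    -Real.log (G J lam 0 x).toReal ≤ nn J lam x := by
  unfold nn
  have := Real.log_le_log (H.gs_toReal_pos x) (ENNReal.toReal_mono (H.G_ne_top x) (gs_le_G x))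
  linarith

theorem KHyp.le_logG (H : KHyp J lam) {h : Vec d} (hh : ENNReal.ofReal lam * Jhat J h < 1) :
    ∃ C, ∀ x, pair h x - C ≤ -Real.log (G J lam 0 x).toReal := by
  have hK : (1 - ENNReal.ofReal lam * Jhat J h)⁻¹ ≠ ∞ :=
    ENNReal.inv_ne_top.2 (tsub_pos_of_lt hh).ne'
  refine ⟨Real.log ((1 - ENNReal.ofReal lam * Jhat J h)⁻¹).toReal, fun x => ?_⟩
  have h1 := ENNReal.toReal_mono hK (G_mul_exp_le (J := J) H.lam_pos.le h x)
  rw [ENNReal.toReal_mul, ENNReal.toReal_ofReal (Real.exp_nonneg _)] at h1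
  have h2 := Real.log_le_log (mul_pos (H.G_toReal_pos x) (Real.exp_pos _)) h1
  rw [Real.log_mul (H.G_toReal_pos x).ne' (Real.exp_pos _).ne', Real.log_exp] at h2
  linarith

theorem pair_latt (h v : Vec d) : ∑ i, h i * v i - ∑ i, |h i| ≤ pair h (latt v) := by
  unfold pair
  rw [← Finset.sum_sub_distrib]
  refine Finset.sum_le_sum fun i _ => ?_
  have e1 := latt_close v i
  have e2 : |h i * (((latt v i : ℤ) : ℝ) - v i)| ≤ |h i| := by
    rw [abs_mul]
    have := abs_nonneg (h i)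
    nlinarith
  have e3 := (abs_le.1 e2).1
  linarith

/-- points of the open polar set give lower bounds for every rate -/
theorem KHyp.le_rate (H : KHyp J lam) {h : Vec d} (hh : ENNReal.ofReal lam * Jhat J h < 1)
    {s : Vec d} {a : ℝ} (ha : IsRate (nn J lam) s a) : ∑ i, h i * s i ≤ a := by
  obtain ⟨C, hC⟩ := H.le_logG hh
  obtain ⟨A, hA⟩ := ha
  have key : ∀ T : ℝ, 0 ≤ T → (∑ i, h i * s i - a) * T ≤ A + C + ∑ i, |h i| := by
    intro T hT
    have h1 := hA T hT
    have h2 := H.logG_le (latt (T • s))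
    have h3 := hC (latt (T • s))
    have h4 := pair_latt h (T • s)
    have h5 : ∑ i, h i * (T • s) i = (∑ i, h i * s i) * T := by
      rw [Finset.sum_mul]
      refine Finset.sum_congr rfl fun i _ => ?_
      simp only [Pi.smul_apply, smul_eq_mul]
      ring
    rw [h5] at h4
    linarith
  by_contra hneg
  push Not at hneg
  have hpos : 0 < ∑ i, h i * s i - a := by linarith
  have h0 := key 0 le_rfl
  rw [mul_zero] at h0
  have h1 := key ((A + C + ∑ i, |h i| + 1) / (∑ i, h i * s i - a)) (by positivity)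
  rw [mul_div_cancel₀ _ hpos.ne'] at h1
  linarith

/-- the main point: dual functionals of the exponent lie in the closure of the open polar set -/
theorem KHyp.dual_lt (H : KHyp J lam) {g : Vec d} (hg : ∀ x, pair g x ≤ nn J lam x)
    {ε : ℝ} (hε0 : 0 < ε) (hε1 : ε < 1) :
    ENNReal.ofReal lam * Jhat J ((1 - ε) • g) < 1 := by
  obtain ⟨r, hr, ρ, hρ0, hρ, hb⟩ := H.w_le_exp
  by_contra hneg
  push Not at hneg
  set S := ∑' x : Site d, ENNReal.ofReal (Real.exp (-(ε * r) * ∑ i, |(x i : ℝ)|)) with hS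
  have hSt : S ≠ ∞ := tsum_exp_l1 (mul_pos hε0 hr)
  have hpt : ∀ n x, w J lam n x * ENNReal.ofReal (Real.exp (pair ((1 - ε) • g) x)) ≤
      ENNReal.ofReal ((ρ ^ ε) ^ n) * ENNReal.ofReal (Real.exp (-(ε * r) * ∑ i, |(x i : ℝ)|)) := by
    intro n x
    have hwt : w J lam n x ≠ ∞ := ne_top_of_le_ne_top ENNReal.one_ne_top (H.w_le_one n x)
    obtain ⟨W, hW⟩ : ∃ W, W = (w J lam n x).toReal := ⟨_, rfl⟩
    have hW0 : 0 ≤ W := hW ▸ ENNReal.toReal_nonneg
    have hw : w J lam n x = ENNReal.ofReal W := by rw [hW, ENNReal.ofReal_toReal hwt]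
    rw [hw, ← ENNReal.ofReal_mul hW0, ← ENNReal.ofReal_mul (by positivity)]
    refine ENNReal.ofReal_le_ofReal ?_
    have h1 : pair ((1 - ε) • g) x = (1 - ε) * pair g x := by
      unfold pair
      rw [Finset.mul_sum]
      refine Finset.sum_congr rfl fun i _ => ?_
      simp only [Pi.smul_apply, smul_eq_mul]
      ring
    have h2 : W * Real.exp (pair g x) ≤ 1 := by
      have e1 : W ≤ (gs J lam x).toReal := by
        rw [hW]
        exact ENNReal.toReal_mono (H.gs_ne_top x) (le_iSup (fun k => w J lam k x) n)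
      have e2 : Real.exp (pair g x) ≤ ((gs J lam x).toReal)⁻¹ := by
        rw [← Real.log_le_log_iff (Real.exp_pos _) (inv_pos.2 (H.gs_toReal_pos x)), Real.log_exp,
          Real.log_inv]
        exact hg x
      calc W * Real.exp (pair g x) ≤ (gs J lam x).toReal * ((gs J lam x).toReal)⁻¹ :=
            mul_le_mul e1 e2 (Real.exp_nonneg _) ENNReal.toReal_nonneg
        _ = 1 := mul_inv_cancel₀ (H.gs_toReal_pos x).ne'
    have h3 : W ≤ ρ ^ n * Real.exp (-r * ∑ i, |(x i : ℝ)|) := by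
      have := hb n x
      rw [hw] at this
      exact (ENNReal.ofReal_le_ofReal_iff (by positivity)).1 this
    have h4 : W * Real.exp ((1 - ε) * pair g x) =
        (W * Real.exp (pair g x)) ^ (1 - ε) * W ^ ε := by
      rw [Real.mul_rpow hW0 (Real.exp_nonneg _), ← Real.exp_mul, mul_comm (pair g x)]
      rcases hW0.eq_or_lt with h0 | h0
      · rw [← h0]
        simp [Real.zero_rpow hε0.ne']
      · rw [mul_right_comm, ← Real.rpow_add h0]
        simp
    rw [h1, h4]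
    have h5 : (W * Real.exp (pair g x)) ^ (1 - ε) ≤ 1 :=
      Real.rpow_le_one (by positivity) h2 (by linarith)
    have h6 : W ^ ε ≤ (ρ ^ ε) ^ n * Real.exp (-(ε * r) * ∑ i, |(x i : ℝ)|) := by
      calc W ^ ε ≤ (ρ ^ n * Real.exp (-r * ∑ i, |(x i : ℝ)|)) ^ ε :=
            Real.rpow_le_rpow hW0 h3 hε0.le
        _ = _ := by
          rw [Real.mul_rpow (by positivity) (Real.exp_nonneg _), ← Real.exp_mul,
            ← Real.rpow_natCast, ← Real.rpow_natCast, ← Real.rpow_mul hρ0.le,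
            ← Real.rpow_mul hρ0.le]
          congr 2
          · ring
          · ring
    calc _ ≤ 1 * W ^ ε := mul_le_mul_of_nonneg_right h5 (by positivity)
      _ ≤ _ := by rw [one_mul]; exact h6
  have hn : ∀ n : ℕ, 1 ≤ ENNReal.ofReal ((ρ ^ ε) ^ n) * S := by
    intro n
    calc (1 : ℝ≥0∞) ≤ (ENNReal.ofReal lam * Jhat J ((1 - ε) • g)) ^ n := one_le_pow₀ hneg
      _ = ∑' z, w J lam n z * ENNReal.ofReal (Real.exp (pair ((1 - ε) • g) z)) :=
          (gen_w J H.lam_pos.le _ n).symm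
      _ ≤ ∑' x : Site d, ENNReal.ofReal ((ρ ^ ε) ^ n) *
            ENNReal.ofReal (Real.exp (-(ε * r) * ∑ i, |(x i : ℝ)|)) :=
          ENNReal.tsum_le_tsum (hpt n)
      _ = _ := by rw [ENNReal.tsum_mul_left]
  have hρε : ρ ^ ε < 1 := Real.rpow_lt_one hρ0.le hρ hε0
  obtain ⟨n, hn'⟩ := exists_pow_lt_of_lt_one (show (0 : ℝ) < 1 / (S.toReal + 1) by
    have : 0 ≤ S.toReal := ENNReal.toReal_nonneg
    positivity) hρε
  have h1 := hn n
  have hS' : S = ENNReal.ofReal S.toReal := (ENNReal.ofReal_toReal hSt).symm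
  rw [hS', ← ENNReal.ofReal_mul (by positivity), ENNReal.one_le_ofReal] at h1
  have h0 : 0 ≤ S.toReal := ENNReal.toReal_nonneg
  rw [lt_div_iff₀ (by positivity)] at hn'
  have : 0 ≤ (ρ ^ ε) ^ n := by positivity
  nlinarith

theorem KHyp.isLUB (H : KHyp J lam) (s : Vec d) :
    IsLUB {a | ∃ h : Vec d, ENNReal.ofReal lam * Jhat J h < 1 ∧ a = ∑ i, h i * s i}
      (pp (nn J lam) s) := by
  constructor
  · rintro a ⟨h, hh, rfl⟩
    exact le_csInf (H.subAdd.exists_rate s) fun a ha => H.le_rate hh ha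
  · intro b hb
    obtain ⟨g, hg, hgs⟩ := H.subAdd.exists_dual s
    rw [← hgs]
    have h1 : ∀ ε : ℝ, 0 < ε → ε < 1 → (1 - ε) * ∑ i, g i * s i ≤ b := by
      intro ε h0 h1
      refine hb ⟨(1 - ε) • g, H.dual_lt hg h0 h1, ?_⟩
      rw [Finset.mul_sum]
      refine Finset.sum_congr rfl fun i _ => ?_
      simp only [Pi.smul_apply, smul_eq_mul]
      ring
    have h2 : Tendsto (fun ε : ℝ => (1 - ε) * ∑ i, g i * s i) (𝓝[>] 0)
        (𝓝 ((1 - 0) * ∑ i, g i * s i)) := by
      refine Tendsto.mono_left ?_ nhdsWithin_le_nhds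
      exact (continuous_const.sub continuous_id).mul continuous_const |>.tendsto 0
    rw [sub_zero, one_mul] at h2
    refine le_of_tendsto h2 ?_
    filter_upwards [Ioo_mem_nhdsGT (show (0 : ℝ) < 1 by norm_num)] with ε hε
    exact h1 ε hε.1 hε.2

theorem KHyp.tendsto (H : KHyp J lam) (s : Vec d) :
    Tendsto (fun j : ℕ => -(1 / (j : ℝ)) * Real.log (G J lam 0 (latt ((j : ℝ) • s))).toReal)
      atTop (𝓝 (pp (nn J lam) s)) := by
  rw [Metric.tendsto_atTop]
  intro ε hε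
  obtain ⟨a, ha, ha'⟩ := H.subAdd.exists_lt s (b := pp (nn J lam) s + ε / 2) (by linarith)
  obtain ⟨A, hA⟩ := ha
  obtain ⟨b, ⟨h, hh, rfl⟩, hb⟩ := (lt_isLUB_iff (H.isLUB s)).1
    (show pp (nn J lam) s - ε / 2 < pp (nn J lam) s by linarith)
  obtain ⟨C, hC⟩ := H.le_logG hh
  obtain ⟨N, hN⟩ := exists_nat_gt ((|A| + |C| + ∑ i, |h i|) / (ε / 2))
  have hsum : 0 ≤ ∑ i, |h i| := Finset.sum_nonneg fun i _ => abs_nonneg _
  refine ⟨N + 1, fun j hj => ?_⟩
  have hj0 : (0 : ℝ) < j := by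
    have : 0 < j := by omega
    exact_mod_cast this
  have hjN : (|A| + |C| + ∑ i, |h i|) < (ε / 2) * j := by
    have h1 : (N : ℝ) < j := by exact_mod_cast (by omega : N < j)
    rw [div_lt_iff₀ (by linarith)] at hN
    nlinarith
  have h1 := hA j hj0.le
  have h2 := H.logG_le (latt ((j : ℝ) • s))
  have h3 := hC (latt ((j : ℝ) • s))
  have h4 := pair_latt h ((j : ℝ) • s)
  have h5 : ∑ i, h i * ((j : ℝ) • s) i = (∑ i, h i * s i) * j := by
    rw [Finset.sum_mul]
    refine Finset.sum_congr rfl fun i _ => ?_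
    simp only [Pi.smul_apply, smul_eq_mul]
    ring
  rw [h5] at h4
  set L := -Real.log (G J lam 0 (latt ((j : ℝ) • s))).toReal with hL
  have e1 : -(1 / (j : ℝ)) * Real.log (G J lam 0 (latt ((j : ℝ) • s))).toReal = L / j := by
    rw [hL]; ring
  rw [e1, Real.dist_eq, abs_lt]
  have hA' := le_abs_self A
  have hC' := le_abs_self C
  have hC'' := abs_nonneg C
  have hA'' := abs_nonneg A
  constructor
  · rw [neg_lt_sub_iff_lt_add]
    have : (∑ i, h i * s i) * j - (ε / 2) * j < L := by linarith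
    have e3 : (∑ i, h i * s i) - (ε / 2) < L / j := by
      rw [lt_div_iff₀ hj0]
      linarith
    linarith
  · have : L < a * j + (ε / 2) * j := by linarith
    have e3 : L / j < a + ε / 2 := by
      rw [div_lt_iff₀ hj0]
      linarith
    linarith

end Pool.Agent.H725R3.KRW
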