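import Pool.Agent.H725R3.KRW.Model2

set_option autoImplicit false
open scoped ENNReal NNReal Topology
open Filter Set

namespace Pool.Agent.H725R3.KRW

/-- the kernel of the example -/
noncomputable abbrev K : Site 2 → ℝ := kern l1 psi

theorem nu_eq {lam : ℝ} (h0 : 0 < lam) (h1 : lam < 1) (s : Vec 2) :
    nu K s lam = pp (nn K lam) s :=
  ((kHyp h0 h1).tendsto s).limUnder_eq

theorem nu_isLUB {lam : ℝ} (h0 : 0 < lam) (h1 : lam < 1) (s : Vec 2) :
    IsLUB {a | ∃ h : Vec 2, ((|h 0| ≤ 1 ∧ |h 1| ≤ 1) ∧ lam * (cc * (F (h 0) * F (h 1) - 1)) < 1) ∧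
      a = h 0 * s 0 + h 1 * s 1} (nu K s lam) := by
  rw [nu_eq h0 h1]
  have h2 := (kHyp h0 h1).isLUB s
  have h3 : {a | ∃ h : Vec 2, ((|h 0| ≤ 1 ∧ |h 1| ≤ 1) ∧
      lam * (cc * (F (h 0) * F (h 1) - 1)) < 1) ∧ a = h 0 * s 0 + h 1 * s 1} =
      {a | ∃ h : Vec 2, ENNReal.ofReal lam * Jhat K h < 1 ∧ a = ∑ i, h i * s i} := by
    ext a
    simp only [Set.mem_ofPred_eq, Fin.sum_univ_two]
    refine exists_congr fun h => and_congr_left fun _ => ?_
    exact (lt_iff h0 h).symm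
  rw [h3]
  exact h2

/-- lower bound for `ν` from a feasible point -/
theorem le_nu {lam : ℝ} (h0 : 0 < lam) (h1 : lam < 1) (s : Vec 2) {a b : ℝ} (ha : |a| ≤ 1)
    (hb : |b| ≤ 1) (hab : lam * (cc * (F a * F b - 1)) < 1) : a * s 0 + b * s 1 ≤ nu K s lam :=
  (nu_isLUB h0 h1 s).1 ⟨![a, b], ⟨⟨by simpa using ha, by simpa using hb⟩, by simpa using hab⟩,
    by simp⟩

theorem nu_le {lam : ℝ} (h0 : 0 < lam) (h1 : lam < 1) (s : Vec 2) {B : ℝ}
    (hB : ∀ a b : ℝ, |a| ≤ 1 → |b| ≤ 1 → lam * (cc * (F a * F b - 1)) < 1 →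
      a * s 0 + b * s 1 ≤ B) : nu K s lam ≤ B := by
  refine (nu_isLUB h0 h1 s).2 ?_
  rintro a ⟨h, ⟨⟨h2, h3⟩, h4⟩, rfl⟩
  exact hB _ _ h2 h3 h4

/-- the parameter at which the boundary point `(1,y)` is on the level line -/
noncomputable def ly (y : ℝ) : ℝ := 1 / (cc * (F 1 * F y - 1))

theorem F1_gt : F 0 < F 1 := F_strict le_rfl one_pos le_rfl

theorem ly_den {y : ℝ} (hy : |y| ≤ 1) : 1 < cc * (F 1 * F y - 1) := by
  have h1 := F1_gt
  have h2 := F_ge hy
  have h3 := one_lt_F0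
  have h4 : 0 < F 0 ^ 2 - 1 := by nlinarith
  unfold cc
  rw [one_div, ← div_eq_inv_mul, lt_div_iff₀ h4]
  nlinarith

theorem ly_pos {y : ℝ} (hy : |y| ≤ 1) : 0 < ly y := by
  unfold ly
  have := ly_den hy
  positivity

theorem ly_lt_one {y : ℝ} (hy : |y| ≤ 1) : ly y < 1 := by
  unfold ly
  have := ly_den hy
  rw [div_lt_one (by linarith)]
  exact this

theorem feas_iff {y a b : ℝ} (hy : |y| ≤ 1) :
    ly y * (cc * (F a * F b - 1)) < 1 ↔ F a * F b < F 1 * F y := by
  unfold ly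
  have h1 := ly_den hy
  have h2 := cc_pos
  rw [one_div, ← div_eq_inv_mul, div_lt_one (by linarith)]
  constructor
  · intro h
    have := lt_of_mul_lt_mul_left h h2.le
    linarith
  · intro h
    exact mul_lt_mul_of_pos_left (by linarith) h2

theorem ly_anti {y z : ℝ} (hy : 0 ≤ y) (hyz : y < z) (hz : z ≤ 1) : ly z < ly y := by
  unfold ly
  have h1 := ly_den (abs_le_one hy (hyz.le.trans hz))
  have h2 := F_strict hy hyz hz
  have h3 := cc_pos
  have h4 := F_pos (show |(1 : ℝ)| ≤ 1 by simp)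
  refine one_div_lt_one_div_of_lt (by linarith) ?_
  exact mul_lt_mul_of_pos_left (by nlinarith) h3

/-- (i) near saturation the maximiser sits on the edge of the square -/
theorem edge {s : Vec 2} (hs1 : 0 < s 1) (hs : s 1 < s 0) :
    ∃ y₀ : ℝ, 0 < y₀ ∧ y₀ < 1 ∧ ∀ y, y₀ < y → y < 1 → nu K s (ly y) = s 0 + s 1 * y := by
  -- choice of y₀
  have hs0 : 0 < s 0 := hs1.trans hs
  set r := s 0 / s 1 with hr
  have hr1 : 1 < r := by rw [hr, lt_div_iff₀ hs1]; linarith
  have hF1 := F_pos (show |(1 : ℝ)| ≤ 1 by simp)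
  have hD1 := D_pos one_pos le_rfl
  have hev : ∀ᶠ y in 𝓝[<] (1 : ℝ), D 1 * F y + D 1 * D y * (1 - y) < r * D y * F 1 := by
    have hc : ContinuousWithinAt (fun y => r * D y * F 1 - (D 1 * F y + D 1 * D y * (1 - y)))
        (Icc (-1) 1) 1 := by
      have c1 := continuousOn_F 1 (by simp)
      have c2 := continuousOn_D 1 (by simp)
      exact ((continuousWithinAt_const.mul c2).mul continuousWithinAt_const).sub
        ((continuousWithinAt_const.mul c1).add ((continuousWithinAt_const.mul c2).mul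
          (continuousWithinAt_const.sub continuousWithinAt_id)))
    have h0 : 0 < r * D 1 * F 1 - (D 1 * F 1 + D 1 * D 1 * (1 - 1)) := by
      have := mul_pos hD1 hF1
      nlinarith
    have h1 := hc.eventually (lt_mem_nhds h0)
    have h3 : (𝓝[<] (1 : ℝ)) ≤ 𝓝[Icc (-1) 1] 1 := by
      rw [nhdsWithin_le_iff]
      filter_upwards [Ioo_mem_nhdsLT (show (0 : ℝ) < 1 by norm_num)] with x hx
      exact ⟨by linarith [hx.1], hx.2.le⟩
    filter_upwards [h1.filter_mono h3] with y hy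
    linarith
  obtain ⟨y₁, hy₁, hy₁'⟩ := (mem_nhdsLT_iff_exists_Ioo_subset' (show (0 : ℝ) < 1 by norm_num)).1 hev
  refine ⟨max y₁ (1 / 2), by positivity, max_lt hy₁ (by norm_num), fun y hy hy1 => ?_⟩
  have hyy : y₁ < y := (le_max_left _ _).trans_lt hy
  have hy0 : 0 < y := by
    have := (le_max_right y₁ (1 / 2)).trans_lt hy
    linarith
  have hkey : D 1 * F y + D 1 * D y * (1 - y) < r * D y * F 1 := hy₁' ⟨hyy, hy1⟩
  have hya : |y| ≤ 1 := abs_le_one hy0.le hy1.le
  have hFy := F_pos hya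
  have hDy := D_pos hy0 hy1.le
  have hl0 := ly_pos hya
  have hl1 := ly_lt_one hya
  refine le_antisymm ?_ ?_
  · refine nu_le hl0 hl1 s fun a b ha hb hab => ?_
    rw [feas_iff hya] at hab
    by_contra hcon
    push Not at hcon
    -- `b > y`
    have ha' := abs_le.1 ha
    have hb' := abs_le.1 hb
    have hby : y < b := by
      by_contra hby
      push Not at hby
      nlinarith [ha'.2]
    -- `a > 0` is not needed: compare with `1 - t`
    set t := (b - y) / r with ht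
    have hr0 : 0 < r := by linarith
    have ht0 : 0 < t := div_pos (by linarith) hr0
    have htr : r * t = b - y := by rw [ht]; field_simp
    have ht1 : t ≤ 1 - y := by
      rw [ht, div_le_iff₀ hr0]
      nlinarith [hb'.2]
    have hat : 1 - t < a := by
      have e1 : s 0 = r * s 1 := by rw [hr]; field_simp
      have e2 : s 1 * (b - y) > s 0 * (1 - a) := by linarith
      rw [e1, ← htr] at e2
      have e3 : 0 < (s 1 * r) * (t - (1 - a)) := by nlinarith
      have e4 := (mul_pos_iff_of_pos_left (mul_pos hs1 hr0)).1 e3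
      linarith
    have h1t0 : 0 ≤ 1 - t := by linarith
    have hFa : F (1 - t) ≤ F a := F_mono h1t0 hat.le ha'.2
    have hFt : F 1 - t * D 1 ≤ F (1 - t) := by
      have := D_mul_le (u := 1) (v := 1 - t) (by simp) (abs_le_one h1t0 (by linarith))
      nlinarith
    have hFb : F y + D y * (r * t) ≤ F b := by
      have := D_mul_le (u := y) (v := b) hya hb
      rw [htr]
      linarith
    have hpos1 : 0 < F (1 - t) := F_pos (abs_le_one h1t0 (by linarith))
    have hFbpos : 0 < F y + D y * (r * t) := by positivity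
    have hprod : (F 1 - t * D 1) * (F y + D y * (r * t)) ≤ F a * F b := by
      calc (F 1 - t * D 1) * (F y + D y * (r * t)) ≤ F (1 - t) * (F y + D y * (r * t)) :=
            mul_le_mul_of_nonneg_right hFt hFbpos.le
        _ ≤ F a * F b := mul_le_mul hFa hFb hFbpos.le (hpos1.le.trans hFa)
    have hbig : F 1 * F y < (F 1 - t * D 1) * (F y + D y * (r * t)) := by
      have e1 : r * t ≤ 1 - y := by rw [htr]; linarith [hb'.2]
      have e2 : 0 < t * (r * D y * F 1 - (D 1 * F y + D 1 * D y * (1 - y))) :=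
        mul_pos ht0 (by linarith)
      have e3 : 0 ≤ t * D 1 * D y * ((1 - y) - r * t) :=
        mul_nonneg (by positivity) (by linarith)
      nlinarith
    linarith
  · -- lower bound by scaling
    have h1 : ∀ q : ℝ, 0 < q → q < 1 → q * (s 0 + s 1 * y) ≤ nu K s (ly y) := by
      intro q hq0 hq1
      have := le_nu hl0 hl1 s (a := q) (b := q * y) (abs_le_one hq0.le hq1.le)
        (abs_le_one (by positivity) (by nlinarith)) (by
          rw [feas_iff hya]
          have e1 := F_strict hq0.le hq1 le_rfl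
          have e2 := F_strict (show 0 ≤ q * y by positivity) (show q * y < y by nlinarith) hy1.le
          have e3 := F_pos (show |q| ≤ 1 from abs_le_one hq0.le hq1.le)
          have e4 := F_pos (show |q * y| ≤ 1 from abs_le_one (by positivity) (by nlinarith))
          exact mul_lt_mul'' e1 e2 e3.le e4.le)
      linarith
    have h2 : Tendsto (fun q : ℝ => q * (s 0 + s 1 * y)) (𝓝[<] 1) (𝓝 (1 * (s 0 + s 1 * y))) :=
      ((continuous_id.mul continuous_const).tendsto 1).mono_left nhdsWithin_le_nhds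
    rw [one_mul] at h2
    refine le_of_tendsto h2 ?_
    filter_upwards [Ioo_mem_nhdsLT (show (0 : ℝ) < 1 by norm_num)] with q hq
    exact h1 q hq.1 hq.2

/-- (ii) for `y` near `0` the edge point is not optimal -/
theorem not_edge {s : Vec 2} (hs1 : 0 < s 1) (hs : s 1 < s 0) :
    ∃ y : ℝ, 0 < y ∧ y < 1 ∧ s 0 + s 1 * y < nu K s (ly y) := by
  have hs0 : 0 < s 0 := hs1.trans hs
  set q := 2 * s 0 / s 1 with hq
  have hq0 : 0 < q := by positivity
  have hF0 := one_lt_F0
  have hF1 := F1_gt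
  have hF1p := F_pos (show |(1 : ℝ)| ≤ 1 by simp)
  have hev : ∀ᶠ κ in 𝓝[>] (0 : ℝ), F 1 * D κ * q < (F 1 - F 0) * F 0 := by
    have hc : ContinuousWithinAt (fun κ => F 1 * D κ * q) (Icc (-1) 1) 0 := by
      have c2 := continuousOn_D 0 (by simp)
      exact (continuousWithinAt_const.mul c2).mul continuousWithinAt_const
    have h0 : F 1 * D 0 * q < (F 1 - F 0) * F 0 := by
      rw [D_zero]
      have : 0 < (F 1 - F 0) * F 0 := mul_pos (by linarith) (by linarith)
      linarith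
    have h1 := hc.eventually (gt_mem_nhds h0)
    have h3 : (𝓝[>] (0 : ℝ)) ≤ 𝓝[Icc (-1) 1] 0 := by
      rw [nhdsWithin_le_iff]
      filter_upwards [Ioo_mem_nhdsGT (show (0 : ℝ) < 1 by norm_num)] with x hx
      exact ⟨by linarith [hx.1], hx.2.le⟩
    exact h1.filter_mono h3
  have hev3 : ∀ᶠ r in 𝓝[>] (0 : ℝ), r ∈ Ioo (0 : ℝ) (min 1 q) :=
    Ioo_mem_nhdsGT (lt_min one_pos hq0)
  obtain ⟨κ, hκ, hκ'⟩ := (hev.and hev3).exists
  have hκ0 : 0 < κ := hκ'.1
  have hκ1 : κ < 1 := hκ'.2.trans_le (min_le_left _ _)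
  have hκq : κ < q := hκ'.2.trans_le (min_le_right _ _)
  set η := κ / q with hη
  have hη0 : 0 < η := by positivity
  have hη1 : η < 1 := by rw [hη, div_lt_one hq0]; exact hκq
  have hκη : κ = q * η := by rw [hη]; field_simp
  -- feasibility
  have hFη : F (1 - η) ≤ F 1 - η * (F 1 - F 0) := by
    have e1 : |1 - η| ≤ 1 := abs_le_one (by linarith) (by linarith)
    have h2 := D_mul_le (u := 1 - η) (v := 1) e1 (by simp)
    have h3 := D_mul_le (u := 1 - η) (v := 0) e1 (by simp)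
    nlinarith
  have hFκ : F κ ≤ F 0 + D κ * κ := by
    have h3 := D_mul_le (u := κ) (v := 0) (abs_le_one hκ0.le hκ1.le) (by simp)
    linarith
  have hDκ := D_pos hκ0 hκ1.le
  have hfe : F (1 - η) * F κ ≤ F 1 * F 0 := by
    have p1 := F_pos (show |1 - η| ≤ 1 from abs_le_one (by linarith) (by linarith))
    have p2 := F_pos (show |κ| ≤ 1 from abs_le_one hκ0.le hκ1.le)
    have e1 : F (1 - η) * F κ ≤ (F 1 - η * (F 1 - F 0)) * (F 0 + D κ * κ) :=
      mul_le_mul hFη hFκ p2.le (p1.le.trans hFη)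
    have e2 : (F 1 - η * (F 1 - F 0)) * (F 0 + D κ * κ) ≤
        F 1 * F 0 - η * ((F 1 - F 0) * F 0 - F 1 * D κ * q) := by
      have e3 : 0 ≤ η * (F 1 - F 0) * (D κ * κ) := by
        have : 0 < F 1 - F 0 := by linarith
        positivity
      have e4 : F 1 * (D κ * κ) = η * (F 1 * D κ * q) := by
        rw [hκη]; ring
      nlinarith
    have e3 : 0 < η * ((F 1 - F 0) * F 0 - F 1 * D κ * q) := mul_pos hη0 (by linarith)
    linarith
  have hval : s 0 < (1 - η) * s 0 + κ * s 1 := by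
    have : κ * s 1 = 2 * (η * s 0) := by
      rw [hκη, hq]
      field_simp
    have h3 : 0 < η * s 0 := by positivity
    linarith
  set gap := (1 - η) * s 0 + κ * s 1 - s 0 with hgap
  have hgap0 : 0 < gap := by linarith
  set y := min (1 / 2) (gap / (2 * s 1)) with hy
  have hy0 : 0 < y := lt_min (by norm_num) (by positivity)
  have hy1 : y < 1 := (min_le_left _ _).trans_lt (by norm_num)
  have hys : s 1 * y < gap := by
    have : y ≤ gap / (2 * s 1) := min_le_right _ _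
    calc s 1 * y ≤ s 1 * (gap / (2 * s 1)) := mul_le_mul_of_nonneg_left this hs1.le
      _ = gap / 2 := by field_simp
      _ < gap := by linarith
  refine ⟨y, hy0, hy1, ?_⟩
  have hya : |y| ≤ 1 := abs_le_one hy0.le hy1.le
  have := le_nu (ly_pos hya) (ly_lt_one hya) s (a := 1 - η) (b := κ)
    (abs_le_one (by linarith) (by linarith)) (abs_le_one hκ0.le hκ1.le) (by
      rw [feas_iff hya]
      have e1 := F_strict le_rfl hy0 hy1.le
      calc _ ≤ F 1 * F 0 := hfe
        _ < F 1 * F y := mul_lt_mul_of_pos_left e1 hF1p)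
  linarith

/-- (iii) no saturation above `ly 1` -/
theorem nu_lt_sat {s : Vec 2} (hs1 : 0 < s 1) (hs : s 1 < s 0) {l : ℝ} (hl : ly 1 < l)
    (hl1 : l < 1) : nu K s l < s 0 + s 1 := by
  have hs0 : 0 < s 0 := hs1.trans hs
  have hl0 : 0 < l := (ly_pos (by simp)).trans hl
  have hc := cc_pos
  have hd := ly_den (y := 1) (by simp)
  have hlt : 1 < l * (cc * (F 1 * F 1 - 1)) := by
    have hne : cc * (F 1 * F 1 - 1) ≠ 0 := by linarith
    have : ly 1 * (cc * (F 1 * F 1 - 1)) = 1 := by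
      unfold ly
      exact one_div_mul_cancel hne
    calc (1 : ℝ) = ly 1 * (cc * (F 1 * F 1 - 1)) := this.symm
      _ < _ := mul_lt_mul_of_pos_right hl (by linarith)
  -- by continuity there is u < 1 with the same property
  have hev : ∀ᶠ u in 𝓝[<] (1 : ℝ), 1 < l * (cc * (F u * F u - 1)) := by
    have hcont : ContinuousWithinAt (fun u => l * (cc * (F u * F u - 1))) (Icc (-1) 1) 1 := by
      have c1 := continuousOn_F 1 (by simp)
      exact continuousWithinAt_const.mul (continuousWithinAt_const.mul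
        ((c1.mul c1).sub continuousWithinAt_const))
    have h1 := hcont.eventually (lt_mem_nhds hlt)
    have h3 : (𝓝[<] (1 : ℝ)) ≤ 𝓝[Icc (-1) 1] 1 := by
      rw [nhdsWithin_le_iff]
      filter_upwards [Ioo_mem_nhdsLT (show (0 : ℝ) < 1 by norm_num)] with x hx
      exact ⟨by linarith [hx.1], hx.2.le⟩
    exact h1.filter_mono h3
  have hev3 : ∀ᶠ r in 𝓝[<] (1 : ℝ), r ∈ Ioo (0 : ℝ) 1 :=
    Ioo_mem_nhdsLT one_pos
  obtain ⟨u, hu, hu'⟩ := (hev.and hev3).exists
  have hgap : 0 < (1 - u) * s 1 := mul_pos (by linarith [hu'.2]) hs1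
  refine lt_of_le_of_lt (nu_le hl0 hl1 s (B := s 0 + s 1 - (1 - u) * s 1) ?_) (by linarith)
  intro a b ha hb hab
  by_contra hcon
  push Not at hcon
  have ha' := abs_le.1 ha
  have hb' := abs_le.1 hb
  have hau : u < a := by
    by_contra h
    push Not at h
    have h1 : (1 - u) * s 1 ≤ (1 - u) * s 0 :=
      mul_le_mul_of_nonneg_left hs.le (by linarith [hu'.2])
    nlinarith [mul_le_mul_of_nonneg_right h hs0.le, mul_le_mul_of_nonneg_right hb'.2 hs1.le]
  have hbu : u < b := by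
    by_contra h
    push Not at h
    nlinarith [mul_le_mul_of_nonneg_right h hs1.le, mul_le_mul_of_nonneg_right ha'.2 hs0.le]
  have e1 := F_mono hu'.1.le hau.le ha'.2
  have e2 := F_mono hu'.1.le hbu.le hb'.2
  have pu := F_pos (abs_le_one hu'.1.le hu'.2.le)
  have e3 : F u * F u ≤ F a * F b := mul_le_mul e1 e2 pu.le (pu.le.trans e1)
  have e4 : l * (cc * (F u * F u - 1)) ≤ l * (cc * (F a * F b - 1)) := by gcongr
  linarith

/-- (iv) uniform positivity -/
theorem nu_pos_unif {l : ℝ} (hl0 : 0 < l) (hl1 : l < 1) :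
    ∃ r > 0, ∀ s : Vec 2, ∑ i, s i ^ 2 = 1 → r ≤ nu K s l := by
  obtain ⟨r, hr, ρ, hρ0, hρ, hb⟩ := (kHyp hl0 hl1).ball
  refine ⟨r, hr, fun s hs => ?_⟩
  rw [Fin.sum_univ_two] at hs
  have hs0 : |s 0| ≤ 1 := abs_le.2 ⟨by nlinarith [sq_nonneg (s 1)], by nlinarith [sq_nonneg (s 1)]⟩
  have hs1 : |s 1| ≤ 1 := abs_le.2 ⟨by nlinarith [sq_nonneg (s 0)], by nlinarith [sq_nonneg (s 0)]⟩
  have h1 : ENNReal.ofReal l * Jhat K (r • s) < 1 := by
    refine lt_of_le_of_lt (hb (r • s) ?_) (by rw [ENNReal.ofReal_lt_one]; exact hρ)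
    intro i
    simp only [Pi.smul_apply, smul_eq_mul, abs_mul, abs_of_pos hr]
    fin_cases i
    · simpa using mul_le_of_le_one_right hr.le hs0
    · simpa using mul_le_of_le_one_right hr.le hs1
  rw [lt_iff hl0] at h1
  have h2 := le_nu hl0 hl1 s h1.1.1 h1.1.2 h1.2
  simp only [Pi.smul_apply, smul_eq_mul] at h2
  calc r = r * s 0 * s 0 + r * s 1 * s 1 := by
        have : r * (s 0 ^ 2 + s 1 ^ 2) = r * 1 := by rw [hs]
        linarith
    _ ≤ _ := h2

theorem sum_G_eq {l : ℝ} (hl : 0 ≤ l) : ∑' x, G K l 0 x = (1 - ENNReal.ofReal l)⁻¹ := by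
  have h1 := sum_G K hl (0 : Vec 2)
  have h2 : Jhat K (0 : Vec 2) = 1 := Jhat_zero
  rw [h2, mul_one] at h1
  rw [← h1]
  refine tsum_congr fun z => ?_
  simp [pair]

theorem lamC_eq : lamC K = 1 := by
  unfold lamC
  have h1 : {l : ℝ | 0 ≤ l ∧ ∑' x, G K l 0 x < ∞} = Ico 0 1 := by
    ext l
    simp only [Set.mem_ofPred_eq, mem_Ico]
    refine and_congr_right fun hl => ?_
    rw [sum_G_eq hl, ENNReal.inv_lt_top, tsub_pos_iff_lt, ENNReal.ofReal_lt_one]
  rw [h1]
  refine le_antisymm ?_ ?_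
  · refine sSup_le ?_
    rintro _ ⟨l, hl, rfl⟩
    show ((l : ℝ) : EReal) ≤ 1
    exact_mod_cast hl.2.le
  · refine le_of_forall_lt fun c hc => ?_
    induction c with
    | bot =>
      refine lt_of_lt_of_le (EReal.bot_lt_coe 0) (le_sSup ⟨0, ⟨le_rfl, one_pos⟩, rfl⟩)
    | top => exact absurd hc (by simp)
    | coe c =>
      have hc1 : c < 1 := by exact_mod_cast hc
      have h0 : max c 0 < (max c 0 + 1) / 2 := by
        have : max c 0 < 1 := max_lt hc1 one_pos
        linarith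
      have h2 : (max c 0 + 1) / 2 < 1 := by
        have : max c 0 < 1 := max_lt hc1 one_pos
        linarith
      refine lt_of_lt_of_le (b := (((max c 0 + 1) / 2 : ℝ) : EReal)) ?_
        (le_sSup ⟨(max c 0 + 1) / 2, ⟨?_, h2⟩, rfl⟩)
      · rw [EReal.coe_lt_coe_iff]
        exact (le_max_left _ _).trans_lt h0
      · exact (le_max_right _ _).trans h0.le

theorem lamExp_eq : lamExp K = 1 := by
  unfold lamExp
  have h1 : {l : ℝ | 0 < l ∧ (l : EReal) < lamC K ∧
      ⨅ s : {s : Vec 2 // ∑ i, s i ^ 2 = 1}, nu K s.1 l = 0} = ∅ := by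
    rw [Set.eq_empty_iff_forall_notMem]
    rintro l ⟨hl0, hl1, hinf⟩
    rw [lamC_eq] at hl1
    have hl1' : l < 1 := by exact_mod_cast hl1
    obtain ⟨r, hr, hr'⟩ := nu_pos_unif hl0 hl1'
    have : Nonempty {s : Vec 2 // ∑ i, s i ^ 2 = 1} :=
      ⟨⟨![1, 0], by simp [Fin.sum_univ_two]⟩⟩
    have h2 : r ≤ ⨅ s : {s : Vec 2 // ∑ i, s i ^ 2 = 1}, nu K s.1 l :=
      le_ciInf fun s => hr' s.1 s.2
    linarith
  rw [h1, Set.image_empty, sInf_empty, lamC_eq]
  exact min_eq_left le_top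

theorem lamSat_le {s : Vec 2} (hs1 : 0 < s 1) (hs : s 1 < s 0) :
    lamSat l1 K s ≤ (ly 1 : ℝ) := by
  unfold lamSat
  refine max_le ?_ (sSup_le ?_)
  · exact_mod_cast (ly_pos (by simp)).le
  · rintro _ ⟨l, ⟨hl0, hl1, hl⟩, rfl⟩
    rw [lamC_eq] at hl1
    have hl1' : l < 1 := by exact_mod_cast hl1
    by_contra hcon
    push Not at hcon
    have hcon' : ly 1 < l := by exact_mod_cast hcon
    have := nu_lt_sat hs1 hs hcon' hl1'
    rw [hl] at this
    unfold l1 at this
    rw [abs_of_pos hs1, abs_of_pos (hs1.trans hs)] at this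
    linarith

theorem analyticAt_ly {y : ℝ} (hy : |y| < 1) : AnalyticAt ℝ ly y := by
  unfold ly
  have h1 := analyticAt_F hy
  have h2 := ly_den hy.le
  exact analyticAt_const.div (analyticAt_const.mul ((analyticAt_const.mul h1).sub analyticAt_const))
    (by linarith)

theorem main {s : Vec 2} (hs1 : 0 < s 1) (hs : s 1 < s 0) :
    ∃ l : ℝ, lamSat l1 K s < l ∧ (l : EReal) < lamExp K ∧ ¬ AnalyticAt ℝ (nu K s) l := by
  by_contra hcon
  push Not at hcon
  have han : ∀ y : ℝ, 0 < y → y < 1 → AnalyticAt ℝ (nu K s) (ly y) := by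
    intro y hy0 hy1
    refine hcon (ly y) (lt_of_le_of_lt (lamSat_le hs1 hs) ?_) ?_
    · exact_mod_cast ly_anti hy0.le hy1 le_rfl
    · rw [lamExp_eq]
      exact_mod_cast ly_lt_one (abs_le_one hy0.le hy1.le)
  have hf : AnalyticOnNhd ℝ (fun y => nu K s (ly y)) (Ioo 0 1) := by
    intro y hy
    exact (han y hy.1 hy.2).comp (analyticAt_ly (by rw [abs_of_pos hy.1]; exact hy.2))
  have hg : AnalyticOnNhd ℝ (fun y => s 0 + s 1 * y) (Ioo 0 1) := fun y _ =>
    analyticAt_const.add (analyticAt_const.mul analyticAt_id)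
  obtain ⟨y₀, hy00, hy01, hy₀⟩ := edge hs1 hs
  obtain ⟨y, hy0, hy1, hy⟩ := not_edge hs1 hs
  have hmid : (y₀ + 1) / 2 ∈ Ioo (0 : ℝ) 1 := ⟨by linarith, by linarith⟩
  have heq : (fun y => nu K s (ly y)) =ᶠ[𝓝 ((y₀ + 1) / 2)] (fun y => s 0 + s 1 * y) := by
    filter_upwards [Ioo_mem_nhds (show y₀ < (y₀ + 1) / 2 by linarith)
      (show (y₀ + 1) / 2 < 1 by linarith)] with z hz
    exact hy₀ z hz.1 hz.2
  have := hf.eqOn_of_preconnected_of_eventuallyEq hg isPreconnected_Ioo hmid heq ⟨hy0, hy1⟩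
  simp only at this
  linarith

end Pool.Agent.H725R3.KRW
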