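import Pool.Agent.H725R3.KRW.Dual

set_option autoImplicit false
open scoped ENNReal NNReal Topology
open Filter Set

namespace Pool.Agent.H725R3.KRW

/-- the polynomially decaying factor -/
noncomputable def fdec (k : ℤ) : ℝ := 1 / (1 + |(k : ℝ)|) ^ 4

/-- one-dimensional weights -/
noncomputable def aa (k : ℤ) : ℝ := fdec k * Real.exp (-|(k : ℝ)|)

/-- one-dimensional Laplace transform -/
noncomputable def F (u : ℝ) : ℝ := ∑' k : ℤ, aa k * Real.exp (u * k)

/-- its derivative -/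
noncomputable def D (u : ℝ) : ℝ := ∑' k : ℤ, aa k * k * Real.exp (u * k)

theorem fdec_pos (k : ℤ) : 0 < fdec k := by
  unfold fdec; positivity

theorem fdec_neg (k : ℤ) : fdec (-k) = fdec k := by
  unfold fdec; simp

theorem aa_pos (k : ℤ) : 0 < aa k := mul_pos (fdec_pos k) (Real.exp_pos _)

theorem aa_neg (k : ℤ) : aa (-k) = aa k := by
  unfold aa; rw [fdec_neg]; simp

theorem aa_zero : aa 0 = 1 := by simp [aa, fdec]

theorem summable_inv_sq : Summable (fun k : ℤ => 1 / (1 + |(k : ℝ)|) ^ 2) := by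
  refine Summable.of_nat_of_neg_add_one ?_ ?_
  · have h := (summable_nat_add_iff 1).2 (Real.summable_one_div_nat_pow.2 (by norm_num : 1 < 2))
    refine h.congr fun n => ?_
    simp [add_comm]
  · have h := (summable_nat_add_iff 2).2 (Real.summable_one_div_nat_pow.2 (by norm_num : 1 < 2))
    refine h.congr fun n => ?_
    have hn : (0 : ℝ) ≤ n := n.cast_nonneg
    congr 2
    push_cast
    rw [abs_of_nonpos (by linarith)]
    ring

theorem fdec_le (k : ℤ) : fdec k ≤ 1 / (1 + |(k : ℝ)|) ^ 2 := by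
  unfold fdec
  have h : 0 ≤ |(k : ℝ)| := abs_nonneg _
  gcongr
  · linarith
  · norm_num

theorem fdec_mul_le (k : ℤ) : fdec k * |(k : ℝ)| ≤ 1 / (1 + |(k : ℝ)|) ^ 2 := by
  unfold fdec
  have h : 0 ≤ |(k : ℝ)| := abs_nonneg _
  rw [one_div, inv_mul_le_iff₀ (by positivity), mul_one_div, le_div_iff₀ (by positivity)]
  nlinarith [mul_nonneg h h, mul_nonneg (mul_nonneg h h) h, mul_nonneg (mul_nonneg h h) (mul_nonneg h h)]

theorem summable_fdec : Summable fdec :=
  Summable.of_nonneg_of_le (fun k => (fdec_pos k).le) fdec_le summable_inv_sq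

theorem mul_le_abs {u : ℝ} (hu : |u| ≤ 1) (k : ℤ) : u * k ≤ |(k : ℝ)| := by
  calc u * k ≤ |u * k| := le_abs_self _
    _ = |u| * |(k : ℝ)| := abs_mul _ _
    _ ≤ 1 * |(k : ℝ)| := mul_le_mul_of_nonneg_right hu (abs_nonneg _)
    _ = _ := one_mul _

theorem aa_exp_le {u : ℝ} (hu : |u| ≤ 1) (k : ℤ) : aa k * Real.exp (u * k) ≤ fdec k := by
  unfold aa
  rw [mul_assoc, ← Real.exp_add]
  have h1 : Real.exp (-|(k : ℝ)| + u * k) ≤ 1 := by
    rw [Real.exp_le_one_iff]
    have := mul_le_abs hu k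
    linarith
  calc _ ≤ fdec k * 1 := mul_le_mul_of_nonneg_left h1 (fdec_pos k).le
    _ = _ := mul_one _

theorem aa_exp_le' {u : ℝ} (hu : |u| ≤ 1) (k : ℤ) :
    ‖aa k * k * Real.exp (u * k)‖ ≤ 1 / (1 + |(k : ℝ)|) ^ 2 := by
  have h1 := aa_exp_le hu k
  rw [Real.norm_eq_abs, abs_mul, abs_mul, abs_of_pos (aa_pos k), abs_of_pos (Real.exp_pos _)]
  calc aa k * |(k : ℝ)| * Real.exp (u * k) = (aa k * Real.exp (u * k)) * |(k : ℝ)| := by ring
    _ ≤ fdec k * |(k : ℝ)| := mul_le_mul_of_nonneg_right h1 (abs_nonneg _)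
    _ ≤ _ := fdec_mul_le k

theorem summable_F {u : ℝ} (hu : |u| ≤ 1) : Summable (fun k : ℤ => aa k * Real.exp (u * k)) :=
  Summable.of_nonneg_of_le (fun k => (mul_pos (aa_pos k) (Real.exp_pos _)).le)
    (aa_exp_le hu) summable_fdec

theorem summable_D {u : ℝ} (hu : |u| ≤ 1) : Summable (fun k : ℤ => aa k * k * Real.exp (u * k)) :=
  Summable.of_norm_bounded summable_inv_sq (aa_exp_le' hu)

theorem F_neg (u : ℝ) : F (-u) = F u := by
  unfold F
  rw [← (Equiv.neg ℤ).tsum_eq]
  refine tsum_congr fun k => ?_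
  simp only [Equiv.neg_apply, aa_neg]
  congr 2
  push_cast
  ring

theorem D_neg (u : ℝ) : D (-u) = -D u := by
  unfold D
  rw [← (Equiv.neg ℤ).tsum_eq, ← tsum_neg]
  refine tsum_congr fun k => ?_
  simp only [Equiv.neg_apply, aa_neg]
  push_cast
  rw [show -u * -(k : ℝ) = u * k by ring]
  ring

theorem F_abs (u : ℝ) : F |u| = F u := by
  rcases abs_choice u with h | h <;> rw [h]
  exact F_neg u

theorem D_mul_le {u v : ℝ} (hu : |u| ≤ 1) (hv : |v| ≤ 1) : D u * (v - u) ≤ F v - F u := by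
  unfold D F
  rw [← tsum_mul_right, ← (summable_F hv).tsum_sub (summable_F hu)]
  refine Summable.tsum_le_tsum ?_ ((summable_D hu).mul_right _)
    ((summable_F hv).sub (summable_F hu))
  intro k
  have h1 : Real.exp (u * k) * (v * k - u * k) ≤ Real.exp (v * k) - Real.exp (u * k) := by
    have h2 := Real.add_one_le_exp (v * k - u * k)
    have h3 : Real.exp (v * k) = Real.exp (u * k) * Real.exp (v * k - u * k) := by
      rw [← Real.exp_add]
      congr 1
      ring
    rw [h3]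
    have := Real.exp_pos (u * k)
    nlinarith
  have h4 := mul_le_mul_of_nonneg_left h1 (aa_pos k).le
  calc aa k * k * Real.exp (u * k) * (v - u) = aa k * (Real.exp (u * k) * (v * k - u * k)) := by
        ring
    _ ≤ aa k * (Real.exp (v * k) - Real.exp (u * k)) := h4
    _ = _ := by ring

theorem D_mono {u v : ℝ} (hu : |u| ≤ 1) (hv : |v| ≤ 1) (huv : u ≤ v) : D u ≤ D v := by
  rcases huv.eq_or_lt with h | h
  · rw [h]
  · have h1 := D_mul_le hu hv
    have h2 := D_mul_le hv hu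
    have h3 : 0 ≤ (D v - D u) * (v - u) := by nlinarith
    have h4 : 0 ≤ D v - D u := nonneg_of_mul_nonneg_left h3 (by linarith)
    linarith

theorem D_zero : D 0 = 0 := by
  have := D_neg 0
  rw [neg_zero] at this
  linarith

theorem D_pos {u : ℝ} (hu0 : 0 < u) (hu : u ≤ 1) : 0 < D u := by
  have hau : |u| ≤ 1 := by rw [abs_of_pos hu0]; exact hu
  have hau' : |-u| ≤ 1 := by rw [abs_neg]; exact hau
  have h1 : 2 * D u = ∑' k : ℤ, (aa k * k * Real.exp (u * k) - aa k * k * Real.exp (-u * k)) := by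
    rw [(summable_D hau).tsum_sub (summable_D hau')]
    have := D_neg u
    unfold D at this ⊢
    linarith
  have h2 : 0 < ∑' k : ℤ, (aa k * k * Real.exp (u * k) - aa k * k * Real.exp (-u * k)) := by
    refine Summable.tsum_pos ((summable_D hau).sub (summable_D hau')) ?_ 1 ?_
    · intro k
      have ha := (aa_pos k).le
      rw [← mul_sub, mul_assoc]
      refine mul_nonneg ha ?_
      rcases le_total 0 (k : ℝ) with hk | hk
      · refine mul_nonneg hk (sub_nonneg.2 (Real.exp_le_exp.2 ?_))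
        nlinarith
      · refine mul_nonneg_of_nonpos_of_nonpos hk (sub_nonpos.2 (Real.exp_le_exp.2 ?_))
        nlinarith
    · have ha := aa_pos 1
      have : Real.exp (-u * ((1 : ℤ) : ℝ)) < Real.exp (u * ((1 : ℤ) : ℝ)) := by
        rw [Real.exp_lt_exp]
        push_cast
        linarith
      push_cast at this ⊢
      nlinarith
  linarith

theorem D_nonneg {u : ℝ} (hu0 : 0 ≤ u) (hu : u ≤ 1) : 0 ≤ D u := by
  rcases hu0.eq_or_lt with h | h
  · rw [← h, D_zero]
  · exact (D_pos h hu).le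

theorem abs_le_one {u : ℝ} (h0 : 0 ≤ u) (h1 : u ≤ 1) : |u| ≤ 1 := by rwa [abs_of_nonneg h0]

theorem F_mono {u v : ℝ} (hu : 0 ≤ u) (huv : u ≤ v) (hv : v ≤ 1) : F u ≤ F v := by
  have h1 := D_mul_le (abs_le_one hu (huv.trans hv)) (abs_le_one (hu.trans huv) hv)
  have h2 := D_nonneg hu (huv.trans hv)
  nlinarith [mul_nonneg h2 (sub_nonneg.2 huv)]

theorem F_strict {u v : ℝ} (hu : 0 ≤ u) (huv : u < v) (hv : v ≤ 1) : F u < F v := by
  have h0 : 0 < (u + v) / 2 := by linarith
  have h1 := F_mono hu (show u ≤ (u + v) / 2 by linarith) (by linarith)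
  have h2 := D_mul_le (abs_le_one h0.le (by linarith)) (abs_le_one (hu.trans huv.le) hv)
  have h3 := D_pos h0 (by linarith)
  nlinarith [mul_pos h3 (show 0 < v - (u + v) / 2 by linarith)]

theorem one_lt_F0 : 1 < F 0 := by
  unfold F
  have h1 := (summable_F (u := 0) (by simp)).sum_add_tsum_compl (s := {0, 1})
  have h2 : 0 ≤ ∑' k : ((({0, 1} : Finset ℤ) : Set ℤ)ᶜ : Set ℤ), aa k * Real.exp (0 * k) :=
    tsum_nonneg fun k => (mul_pos (aa_pos k) (Real.exp_pos _)).le
  rw [Finset.sum_pair (by norm_num)] at h1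
  rw [← h1]
  simp only [Int.cast_zero, mul_zero, zero_mul, Real.exp_zero, mul_one, aa_zero] at h2 ⊢
  have := aa_pos 1
  linarith

theorem F_ge {u : ℝ} (hu : |u| ≤ 1) : F 0 ≤ F u := by
  rw [← F_abs u]
  exact F_mono le_rfl (abs_nonneg u) hu

theorem F_pos {u : ℝ} (hu : |u| ≤ 1) : 0 < F u := by
  have := F_ge hu
  have := one_lt_F0
  linarith

theorem continuousOn_F : ContinuousOn F (Icc (-1) 1) := by
  unfold F
  refine continuousOn_tsum (u := fdec) (fun k => by fun_prop) summable_fdec fun k u hu => ?_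
  rw [Real.norm_eq_abs, abs_of_pos (mul_pos (aa_pos k) (Real.exp_pos _))]
  exact aa_exp_le (abs_le.2 hu) k

theorem continuousOn_D : ContinuousOn D (Icc (-1) 1) := by
  unfold D
  exact continuousOn_tsum (u := fun k : ℤ => 1 / (1 + |(k : ℝ)|) ^ 2) (fun k => by fun_prop)
    summable_inv_sq fun k u hu => aa_exp_le' (abs_le.2 hu) k

/-- `F` is real-analytic on `(-1,1)` -/
theorem analyticAt_F {u : ℝ} (hu : |u| < 1) : AnalyticAt ℝ F u := by
  let Fc : ℂ → ℂ := fun z => ∑' k : ℤ, (aa k : ℂ) * Complex.exp (z * k)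
  let U : Set ℂ := {z | |z.re| < 1}
  have hU : IsOpen U := isOpen_lt (continuous_abs.comp Complex.continuous_re) continuous_const
  have hd : DifferentiableOn ℂ Fc U := by
    refine Complex.differentiableOn_tsum_of_summable_norm summable_fdec (fun k => ?_) hU ?_
    · fun_prop
    · intro k z hz
      rw [norm_mul, Complex.norm_real, Complex.norm_exp, Real.norm_eq_abs, abs_of_pos (aa_pos k)]
      have : (z * (k : ℂ)).re = z.re * k := by
        simp [Complex.mul_re]
      rw [this]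
      exact aa_exp_le (le_of_lt hz) k
  have ha : AnalyticAt ℂ Fc (u : ℂ) :=
    hd.analyticAt (hU.mem_nhds (by simpa [U] using hu))
  have hb : AnalyticAt ℝ (fun x : ℝ => (Fc x).re) u := by
    have h1 : AnalyticAt ℝ Fc (u : ℂ) := ha.restrictScalars
    have h2 : AnalyticAt ℝ (fun x : ℝ => (x : ℂ)) u := Complex.ofRealCLM.analyticAt u
    have h3 : AnalyticAt ℝ (fun x : ℝ => Fc x) u := h1.comp h2
    exact (Complex.reCLM.analyticAt _).comp h3
  refine hb.congr (Eventually.of_forall fun x => ?_)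
  show (Fc x).re = F x
  have : Fc x = ((F x : ℝ) : ℂ) := by
    simp only [Fc, F]
    push_cast
    rfl
  rw [this, Complex.ofReal_re]

end Pool.Agent.H725R3.KRW
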