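import Pool.Agent.H725R3.KRW.Model
import Pool.Agent.H725R3.KRW.Defs

set_option autoImplicit false
open scoped ENNReal NNReal Topology
open Filter Set

namespace Pool.Agent.H725R3.KRW

/-- the `ℓ¹` norm on `R²` -/
def l1 (v : Vec 2) : ℝ := |v 0| + |v 1|

/-- the normalisation -/
noncomputable def cc : ℝ := 1 / (F 0 ^ 2 - 1)

/-- the prefactor of the example -/
noncomputable def psi (x : Site 2) : ℝ := cc * (fdec (x 0) * fdec (x 1))

theorem cc_pos : 0 < cc := by
  unfold cc
  have := one_lt_F0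
  have : 0 < F 0 ^ 2 - 1 := by nlinarith
  positivity

/-- extended one-dimensional Laplace transform -/
noncomputable def Fe (u : ℝ) : ℝ≥0∞ := ∑' k : ℤ, ENNReal.ofReal (aa k * Real.exp (u * k))

theorem Fe_eq {u : ℝ} (hu : |u| ≤ 1) : Fe u = ENNReal.ofReal (F u) := by
  unfold Fe F
  rw [ENNReal.ofReal_tsum_of_nonneg (fun k => (mul_pos (aa_pos k) (Real.exp_pos _)).le)
    (summable_F hu)]

theorem Fe_pos (u : ℝ) : Fe u ≠ 0 := by
  intro h
  have := ENNReal.tsum_eq_zero.1 h 0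
  simp [aa_zero] at this

theorem Fe_neg (u : ℝ) : Fe (-u) = Fe u := by
  unfold Fe
  rw [← (Equiv.neg ℤ).tsum_eq]
  refine tsum_congr fun k => ?_
  simp only [Equiv.neg_apply, aa_neg]
  congr 3
  push_cast
  ring

theorem Fe_top' {u : ℝ} (hu : 1 < u) : Fe u = ∞ := by
  by_contra hne
  have h1 : Summable (fun k : ℤ => aa k * Real.exp (u * k)) := by
    have h2 := ENNReal.summable_toReal hne
    refine h2.congr fun k => ?_
    exact ENNReal.toReal_ofReal (mul_pos (aa_pos k) (Real.exp_pos _)).le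
  have h2 := (h1.tendsto_cofinite_zero).comp (Nat.cast_injective (R := ℤ)).tendsto_cofinite
  rw [Nat.cofinite_eq_atTop] at h2
  set δ := u - 1 with hδ
  have hδ0 : 0 < δ := by linarith
  have h3 : Tendsto (fun n : ℕ => (δ * (1 + (n : ℝ))) ^ 4 * Real.exp (-(δ * (1 + (n : ℝ)))))
      atTop (𝓝 0) := by
    have h4 := Real.tendsto_pow_mul_exp_neg_atTop_nhds_zero 4
    refine h4.comp ?_
    refine Tendsto.const_mul_atTop hδ0 ?_
    exact tendsto_atTop_add_const_left _ _ tendsto_natCast_atTop_atTop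
  have h5 := h2.mul h3
  rw [mul_zero] at h5
  have h6 : ∀ n : ℕ, (((fun k : ℤ => aa k * Real.exp (u * k)) ∘ (Nat.cast : ℕ → ℤ)) n) *
      ((δ * (1 + (n : ℝ))) ^ 4 * Real.exp (-(δ * (1 + (n : ℝ))))) = δ ^ 4 * Real.exp (-δ) := by
    intro n
    simp only [Function.comp, aa, fdec, Int.cast_natCast, Nat.abs_cast]
    have hn : (0 : ℝ) ≤ n := n.cast_nonneg
    have e1 : Real.exp (-(δ * (1 + (n : ℝ)))) = Real.exp (-δ) * Real.exp (-(δ * n)) := by
      rw [← Real.exp_add]; ring_nf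
    have e2 : Real.exp (-(n : ℝ)) * Real.exp (u * n) * Real.exp (-(δ * n)) = 1 := by
      rw [← Real.exp_add, ← Real.exp_add, hδ]
      have : -(n : ℝ) + u * n + -((u - 1) * n) = 0 := by ring
      rw [this, Real.exp_zero]
    rw [e1]
    calc 1 / (1 + (n : ℝ)) ^ 4 * Real.exp (-(n : ℝ)) * Real.exp (u * n) *
          ((δ * (1 + (n : ℝ))) ^ 4 * (Real.exp (-δ) * Real.exp (-(δ * n))))
        = (Real.exp (-(n : ℝ)) * Real.exp (u * n) * Real.exp (-(δ * n))) *
          (δ ^ 4 * Real.exp (-δ)) * ((1 + (n : ℝ)) ^ 4 / (1 + (n : ℝ)) ^ 4) := by ring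
      _ = _ := by
        rw [e2, div_self (by positivity)]
        ring
  have h7 : Tendsto (fun _ : ℕ => δ ^ 4 * Real.exp (-δ)) atTop (𝓝 0) :=
    h5.congr fun n => h6 n
  have h8 := tendsto_nhds_unique h7 tendsto_const_nhds
  have : 0 < δ ^ 4 * Real.exp (-δ) := by positivity
  linarith

theorem Fe_top {u : ℝ} (hu : 1 < |u|) : Fe u = ∞ := by
  rcases abs_choice u with h | h
  · rw [h] at hu
    exact Fe_top' hu
  · rw [h] at hu
    rw [← Fe_neg]
    exact Fe_top' hu

theorem Jhat_add (h : Vec 2) :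
    Jhat (kern l1 psi) h + ENNReal.ofReal cc = ENNReal.ofReal cc * (Fe (h 0) * Fe (h 1)) := by
  classical
  have h1 : Fe (h 0) * Fe (h 1) = ∑' x : Site 2,
      ENNReal.ofReal (aa (x 0) * Real.exp (h 0 * x 0)) *
      ENNReal.ofReal (aa (x 1) * Real.exp (h 1 * x 1)) := by
    rw [← (finTwoArrowEquiv ℤ).symm.tsum_eq, ENNReal.tsum_prod']
    unfold Fe
    simp only [finTwoArrowEquiv_symm_apply, Matrix.cons_val_zero, Matrix.cons_val_one]
    simp_rw [ENNReal.tsum_mul_left]
    rw [ENNReal.tsum_mul_right]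
  have h2 : ENNReal.ofReal cc = ∑' x : Site 2, if x = 0 then ENNReal.ofReal cc else 0 := by
    rw [tsum_ite_eq]
  rw [h1, ← ENNReal.tsum_mul_left]
  conv_lhs => rw [h2]
  unfold Jhat
  rw [← ENNReal.tsum_add]
  refine tsum_congr fun x => ?_
  by_cases hx : x = 0
  · subst hx
    simp [kern, aa_zero]
  · rw [if_neg hx, add_zero]
    simp only [kern, if_neg hx]
    have hc := cc_pos.le
    have ha0 := (aa_pos (x 0)).le
    have ha1 := (aa_pos (x 1)).le
    have hf0 := (fdec_pos (x 0)).le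
    have hf1 := (fdec_pos (x 1)).le
    rw [← ENNReal.ofReal_mul (by unfold psi; positivity), ← ENNReal.ofReal_mul (by positivity),
      ← ENNReal.ofReal_mul hc]
    congr 1
    unfold psi aa pair l1 toVec
    rw [Fin.sum_univ_two, neg_add, Real.exp_add, Real.exp_add]
    ring

theorem Jhat_in {h : Vec 2} (h0 : |h 0| ≤ 1) (h1 : |h 1| ≤ 1) :
    Jhat (kern l1 psi) h = ENNReal.ofReal (cc * (F (h 0) * F (h 1) - 1)) := by
  have e := Jhat_add h
  rw [Fe_eq h0, Fe_eq h1] at e
  have hc := cc_pos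
  have p0 := F_pos h0
  have p1 := F_pos h1
  have q0 := F_ge h0
  have q1 := F_ge h1
  have hF := one_lt_F0
  have hFF : 1 ≤ F (h 0) * F (h 1) := by nlinarith
  rw [← ENNReal.ofReal_mul p0.le, ← ENNReal.ofReal_mul hc.le] at e
  have e2 : ENNReal.ofReal (cc * (F (h 0) * F (h 1))) =
      ENNReal.ofReal (cc * (F (h 0) * F (h 1) - 1)) + ENNReal.ofReal cc := by
    rw [← ENNReal.ofReal_add (mul_nonneg hc.le (by linarith)) hc.le]
    congr 1
    ring
  rw [e2] at e
  exact (ENNReal.add_left_inj ENNReal.ofReal_ne_top).1 e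

theorem Jhat_out {h : Vec 2} (hh : 1 < |h 0| ∨ 1 < |h 1|) : Jhat (kern l1 psi) h = ∞ := by
  have e := Jhat_add h
  have e2 : Fe (h 0) * Fe (h 1) = ∞ := by
    rcases hh with hh | hh
    · rw [Fe_top hh]
      exact ENNReal.top_mul (Fe_pos _)
    · rw [Fe_top hh]
      exact ENNReal.mul_top (Fe_pos _)
  rw [e2, ENNReal.mul_top (by simpa using cc_pos)] at e
  rcases ENNReal.add_eq_top.1 e with h1 | h1
  · exact h1
  · exact absurd h1 ENNReal.ofReal_ne_top

theorem lt_iff {lam : ℝ} (hl : 0 < lam) (h : Vec 2) :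
    ENNReal.ofReal lam * Jhat (kern l1 psi) h < 1 ↔
      (|h 0| ≤ 1 ∧ |h 1| ≤ 1) ∧ lam * (cc * (F (h 0) * F (h 1) - 1)) < 1 := by
  constructor
  · intro hlt
    have hin : |h 0| ≤ 1 ∧ |h 1| ≤ 1 := by
      by_contra hcon
      have : 1 < |h 0| ∨ 1 < |h 1| := by
        by_contra h'
        push Not at h'
        exact hcon h'
      rw [Jhat_out this, ENNReal.mul_top (by simpa using hl)] at hlt
      exact absurd hlt (by simp)
    refine ⟨hin, ?_⟩
    rw [Jhat_in hin.1 hin.2, ← ENNReal.ofReal_mul hl.le, ENNReal.ofReal_lt_one] at hlt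
    exact hlt
  · rintro ⟨hin, hlt⟩
    rw [Jhat_in hin.1 hin.2, ← ENNReal.ofReal_mul hl.le, ENNReal.ofReal_lt_one]
    exact hlt

theorem Jhat_zero : Jhat (kern l1 psi) 0 = 1 := by
  rw [Jhat_in (by simp) (by simp)]
  have h1 : cc * (F ((0 : Vec 2) 0) * F ((0 : Vec 2) 1) - 1) = 1 := by
    simp only [Pi.zero_apply]
    have := one_lt_F0
    have h2 : F 0 ^ 2 - 1 ≠ 0 := by nlinarith
    unfold cc
    rw [← sq, one_div, inv_mul_cancel₀ h2]
  rw [h1, ENNReal.ofReal_one]

theorem kern_nonneg (x : Site 2) : 0 ≤ kern l1 psi x := by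
  classical
  unfold kern
  split_ifs
  · exact le_rfl
  · unfold psi
    have := cc_pos
    have := fdec_pos (x 0)
    have := fdec_pos (x 1)
    positivity

theorem kern_pos (x : Site 2) (hx : x ≠ 0) : 0 < kern l1 psi x := by
  classical
  unfold kern
  rw [if_neg hx]
  unfold psi
  have := cc_pos
  have := fdec_pos (x 0)
  have := fdec_pos (x 1)
  positivity

theorem kern_sum : HasSum (kern l1 psi) 1 := by
  have h1 : ∑' x, ENNReal.ofReal (kern l1 psi x) = 1 := by
    rw [← Jhat_zero]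
    unfold Jhat
    refine tsum_congr fun x => ?_
    simp [pair]
  have h2 : Summable (kern l1 psi) := by
    have h3 := ENNReal.summable_toReal (f := fun x => ENNReal.ofReal (kern l1 psi x))
      (by rw [h1]; exact ENNReal.one_ne_top)
    exact h3.congr fun x => ENNReal.toReal_ofReal (kern_nonneg x)
  have h4 := ENNReal.ofReal_tsum_of_nonneg kern_nonneg h2
  rw [h1, ENNReal.ofReal_eq_one] at h4
  rw [← h4]
  exact h2.hasSum

theorem kHyp {lam : ℝ} (h0 : 0 < lam) (h1 : lam < 1) : KHyp (kern l1 psi) lam where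
  Jpos := kern_pos
  lam_pos := h0
  ball := by
    have hc : ContinuousWithinAt (fun r => lam * (cc * (F r * F r - 1))) (Icc (-1) 1) 0 := by
      have := continuousOn_F 0 (by simp)
      exact continuousWithinAt_const.mul (continuousWithinAt_const.mul
        ((this.mul this).sub continuousWithinAt_const))
    have hc0 : lam * (cc * (F 0 * F 0 - 1)) < 1 := by
      have h2 : cc * (F 0 * F 0 - 1) = 1 := by
        have := one_lt_F0
        have h2 : F 0 ^ 2 - 1 ≠ 0 := by nlinarith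
        unfold cc
        rw [← sq, one_div, inv_mul_cancel₀ h2]
      rw [h2]
      linarith
    have hev := hc.eventually (gt_mem_nhds hc0)
    have h3 : (𝓝[>] (0 : ℝ)) ≤ 𝓝[Icc (-1) 1] 0 := by
      rw [nhdsWithin_le_iff]
      filter_upwards [Ioo_mem_nhdsGT (show (0 : ℝ) < 1 by norm_num)] with x hx
      exact ⟨by linarith [hx.1], hx.2.le⟩
    have hev2 : ∀ᶠ r in 𝓝[>] (0 : ℝ), lam * (cc * (F r * F r - 1)) < 1 := hev.filter_mono h3
    have hev3 : ∀ᶠ r in 𝓝[>] (0 : ℝ), r ∈ Ioo (0 : ℝ) 1 :=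
      Ioo_mem_nhdsGT (show (0 : ℝ) < 1 by norm_num)
    obtain ⟨r, hr, hr'⟩ := (hev2.and hev3).exists
    refine ⟨r, hr'.1, max (1 / 2) (lam * (cc * (F r * F r - 1))), by positivity, ?_, ?_⟩
    · rw [max_lt_iff]
      exact ⟨by norm_num, hr⟩
    · intro h hh
      have a0 : |h 0| ≤ 1 := (hh 0).trans hr'.2.le
      have a1 : |h 1| ≤ 1 := (hh 1).trans hr'.2.le
      rw [Jhat_in a0 a1, ← ENNReal.ofReal_mul h0.le]
      refine ENNReal.ofReal_le_ofReal (le_trans ?_ (le_max_right _ _))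
      have hc := cc_pos
      have b0 : F (h 0) ≤ F r := by
        rw [← F_abs]
        exact F_mono (abs_nonneg _) (hh 0) hr'.2.le
      have b1 : F (h 1) ≤ F r := by
        rw [← F_abs]
        exact F_mono (abs_nonneg _) (hh 1) hr'.2.le
      have p0 := F_pos a0
      have p1 := F_pos a1
      have pr : 0 ≤ F r := p0.le.trans b0
      gcongr

end Pool.Agent.H725R3.KRW
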