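import Pool.Agent.H725R3.KRW.Walk

set_option autoImplicit false
open scoped ENNReal NNReal Topology
open Filter Set

namespace Pool.Agent.H725R3.KRW

variable {d : ℕ} {n : Site d → ℝ}

/-- nonnegative subadditive function on the lattice -/
structure SubAdd (n : Site d → ℝ) : Prop where
  zero : n 0 = 0
  nonneg : ∀ x, 0 ≤ n x
  add : ∀ x y, n (x + y) ≤ n x + n y

theorem SubAdd.nsmul (h : SubAdd n) (k : ℕ) (x : Site d) : n (k • x) ≤ k * n x := by
  induction k with
  | zero => simp [h.zero]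
  | succ k ih =>
    rw [succ_nsmul]
    push_cast
    have := h.add (k • x) x
    linarith

theorem SubAdd.zsmul (h : SubAdd n) (k : ℤ) (x : Site d) :
    n (k • x) ≤ |(k : ℝ)| * (n x + n (-x)) := by
  obtain ⟨m, rfl | rfl⟩ := k.eq_nat_or_neg
  · have h1 := h.nsmul m x
    rw [natCast_zsmul]
    have h2 := h.nonneg (-x)
    have h3 : (0 : ℝ) ≤ m := m.cast_nonneg
    simp only [Int.cast_natCast, Nat.abs_cast]
    nlinarith
  · have h1 := h.nsmul m (-x)
    rw [neg_smul, natCast_zsmul, ← smul_neg]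
    have h2 := h.nonneg x
    have h3 : (0 : ℝ) ≤ m := m.cast_nonneg
    simp only [Int.cast_neg, Int.cast_natCast, abs_neg, Nat.abs_cast]
    nlinarith

theorem SubAdd.lin (h : SubAdd n) :
    ∃ C, 0 ≤ C ∧ ∀ x : Site d, n x ≤ C * ∑ i, |(x i : ℝ)| := by
  classical
  let e : Fin d → Site d := fun i => Pi.single i 1
  have hpos : ∀ i, 0 ≤ n (e i) + n (-(e i)) := fun i => add_nonneg (h.nonneg _) (h.nonneg _)
  refine ⟨∑ i, (n (e i) + n (-(e i))), Finset.sum_nonneg fun i _ => hpos i, fun x => ?_⟩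
  have hx : x = ∑ i, (x i) • e i := by
    funext j
    simp [e, Finset.sum_apply, Pi.single_apply]
  have h1 : n (∑ i, (x i) • e i) ≤ ∑ i, n ((x i) • e i) :=
    Finset.le_sum_of_subadditive n h.zero.le h.add _ _
  rw [← hx] at h1
  refine h1.trans ?_
  rw [Finset.mul_sum]
  refine Finset.sum_le_sum fun i _ => ?_
  refine (h.zsmul (x i) (e i)).trans ?_
  rw [mul_comm]
  refine mul_le_mul_of_nonneg_right ?_ (abs_nonneg _)
  exact Finset.single_le_sum (f := fun i => n (e i) + n (-(e i))) (fun i _ => hpos i)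
    (Finset.mem_univ i)

theorem latt_close (v : Vec d) (i : Fin d) : |((latt v i : ℤ) : ℝ) - v i| ≤ 1 / 2 := by
  unfold latt
  have h1 := Int.floor_le (v i + 1 / 2)
  have h2 := Int.lt_floor_add_one (v i + 1 / 2)
  rw [abs_le]
  constructor <;> linarith

theorem SubAdd.near (h : SubAdd n) {C : ℝ} (hC : ∀ x : Site d, n x ≤ C * ∑ i, |(x i : ℝ)|)
    (hC0 : 0 ≤ C) {K : ℝ} (x y : Site d) (hK : ∑ i, |(x i : ℝ) - y i| ≤ K) :
    n x ≤ n y + C * K := by
  have h1 := h.add y (x - y)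
  rw [add_sub_cancel] at h1
  have h2 := hC (x - y)
  have h3 : ∑ i, |(((x - y) i : ℤ) : ℝ)| = ∑ i, |(x i : ℝ) - y i| := by
    refine Finset.sum_congr rfl fun i _ => ?_
    simp
  rw [h3] at h2
  have h4 : C * ∑ i, |(x i : ℝ) - y i| ≤ C * K := mul_le_mul_of_nonneg_left hK hC0
  linarith

/-- `a` is an upper linear growth rate of `n` in the direction `v` -/
def IsRate (n : Site d → ℝ) (v : Vec d) (a : ℝ) : Prop :=
  ∃ C, ∀ T : ℝ, 0 ≤ T → n (latt (T • v)) ≤ a * T + C

theorem SubAdd.rate_nonneg (h : SubAdd n) {v : Vec d} {a : ℝ} (ha : IsRate n v a) : 0 ≤ a := by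
  obtain ⟨C, hC⟩ := ha
  by_contra hneg
  push Not at hneg
  have h0 := hC 0 le_rfl
  have hC0 : 0 ≤ C := by
    have := h.nonneg (latt ((0 : ℝ) • v))
    linarith
  have h1 := hC ((C + 1) / (-a)) (div_nonneg (by linarith) (by linarith))
  have h2 := h.nonneg (latt (((C + 1) / (-a)) • v))
  have hne : -a ≠ 0 := by linarith
  have h3 : a * ((C + 1) / (-a)) = -(C + 1) := by
    have : (C + 1) / (-a) * (-a) = C + 1 := div_mul_cancel₀ _ hne
    linarith
  linarith

theorem SubAdd.rate_add (h : SubAdd n) {v v' : Vec d} {a b : ℝ} (ha : IsRate n v a)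
    (hb : IsRate n v' b) : IsRate n (v + v') (a + b) := by
  obtain ⟨C, hC0, hC⟩ := h.lin
  obtain ⟨A, hA⟩ := ha
  obtain ⟨B, hB⟩ := hb
  refine ⟨A + B + C * (d * (3 / 2)), fun T hT => ?_⟩
  have h1 := h.near hC hC0 (K := d * (3 / 2)) (latt (T • (v + v'))) (latt (T • v) + latt (T • v')) (by
    calc ∑ i, |((latt (T • (v + v')) i : ℤ) : ℝ) - ((latt (T • v) + latt (T • v')) i : ℤ)|
        ≤ ∑ i : Fin d, (3 / 2 : ℝ) := by
          refine Finset.sum_le_sum fun i _ => ?_
          have e1 := latt_close (T • (v + v')) i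
          have e2 := latt_close (T • v) i
          have e3 := latt_close (T • v') i
          simp only [Pi.add_apply, Pi.smul_apply, smul_eq_mul, Int.cast_add] at e1 e2 e3 ⊢
          rw [abs_le] at *
          constructor <;> linarith [e1.1, e1.2, e2.1, e2.2, e3.1, e3.2]
      _ = d * (3 / 2) := by simp)
  have h2 := h.add (latt (T • v)) (latt (T • v'))
  have h3 := hA T hT
  have h4 := hB T hT
  linarith

theorem rate_smul {v : Vec d} {a c : ℝ} (hc : 0 ≤ c) (ha : IsRate n v a) :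
    IsRate n (c • v) (c * a) := by
  obtain ⟨A, hA⟩ := ha
  refine ⟨A, fun T hT => ?_⟩
  have := hA (T * c) (mul_nonneg hT hc)
  rw [smul_smul]
  linarith

theorem SubAdd.rate_int (h : SubAdd n) (x : Site d) : IsRate n (toVec x) (n x) := by
  obtain ⟨C, hC0, hC⟩ := h.lin
  refine ⟨C * ∑ i, (1 / 2 + |(x i : ℝ)|), fun T hT => ?_⟩
  have h1 := h.near hC hC0 (K := ∑ i, (1 / 2 + |(x i : ℝ)|)) (latt (T • toVec x)) (⌊T⌋₊ • x) (by
    refine Finset.sum_le_sum fun i _ => ?_
    have e1 := latt_close (T • toVec x) i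
    have e2 : |(T - (⌊T⌋₊ : ℝ)) * (x i : ℝ)| ≤ |(x i : ℝ)| := by
      rw [abs_mul]
      have h5 := Nat.floor_le hT
      have h6 := Nat.lt_floor_add_one T
      have : |T - (⌊T⌋₊ : ℝ)| ≤ 1 := by
        rw [abs_le]
        constructor <;> linarith
      calc _ ≤ 1 * |(x i : ℝ)| := mul_le_mul_of_nonneg_right this (abs_nonneg _)
        _ = _ := one_mul _
    simp only [toVec, Pi.smul_apply, smul_eq_mul] at e1
    have e3 : (((⌊T⌋₊ • x) i : ℤ) : ℝ) = (⌊T⌋₊ : ℝ) * x i := by simp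
    rw [e3]
    calc |((latt (T • toVec x) i : ℤ) : ℝ) - (⌊T⌋₊ : ℝ) * x i|
        = |(((latt (T • toVec x) i : ℤ) : ℝ) - T * x i) + (T - ⌊T⌋₊) * x i| := by ring_nf
      _ ≤ _ := (abs_add_le _ _).trans (add_le_add e1 e2))
  have h2 := h.nsmul ⌊T⌋₊ x
  have h5 := Nat.floor_le hT
  have h6 : (⌊T⌋₊ : ℝ) * n x ≤ T * n x := mul_le_mul_of_nonneg_right h5 (h.nonneg x)
  linarith

theorem SubAdd.exists_rate (h : SubAdd n) (v : Vec d) : ∃ a, IsRate n v a := by
  obtain ⟨C, hC0, hC⟩ := h.lin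
  refine ⟨C * ∑ i, |v i|, C * ∑ i : Fin d, (1 / 2), fun T hT => ?_⟩
  refine (hC _).trans ?_
  have : ∑ i, |((latt (T • v) i : ℤ) : ℝ)| ≤ (∑ i, |v i|) * T + ∑ i : Fin d, (1 / 2) := by
    rw [Finset.sum_mul, ← Finset.sum_add_distrib]
    refine Finset.sum_le_sum fun i _ => ?_
    have e1 := latt_close (T • v) i
    simp only [Pi.smul_apply, smul_eq_mul] at e1
    have e2 : |T * v i| = |v i| * T := by rw [abs_mul, abs_of_nonneg hT, mul_comm]
    calc |((latt (T • v) i : ℤ) : ℝ)| = |T * v i + (((latt (T • v) i : ℤ) : ℝ) - T * v i)| := by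
          ring_nf
      _ ≤ |T * v i| + |((latt (T • v) i : ℤ) : ℝ) - T * v i| := abs_add_le _ _
      _ ≤ _ := by rw [e2]; linarith
  calc C * ∑ i, |((latt (T • v) i : ℤ) : ℝ)| ≤ C * ((∑ i, |v i|) * T + ∑ i : Fin d, (1 / 2)) :=
        mul_le_mul_of_nonneg_left this hC0
    _ = _ := by ring

/-- the least upper growth rate -/
noncomputable def pp (n : Site d → ℝ) (v : Vec d) : ℝ := sInf {a | IsRate n v a}

theorem SubAdd.bdd (h : SubAdd n) (v : Vec d) : BddBelow {a | IsRate n v a} :=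
  ⟨0, fun _ ha => h.rate_nonneg ha⟩

theorem SubAdd.pp_le (h : SubAdd n) {v : Vec d} {a : ℝ} (ha : IsRate n v a) : pp n v ≤ a :=
  csInf_le (h.bdd v) ha

theorem SubAdd.exists_lt (h : SubAdd n) (v : Vec d) {b : ℝ} (hb : pp n v < b) :
    ∃ a, IsRate n v a ∧ a < b :=
  exists_lt_of_csInf_lt (h.exists_rate v) hb

theorem SubAdd.pp_add (h : SubAdd n) (v v' : Vec d) : pp n (v + v') ≤ pp n v + pp n v' := by
  refine le_of_forall_pos_le_add fun ε hε => ?_
  obtain ⟨a, ha, ha'⟩ := h.exists_lt v (b := pp n v + ε / 2) (by linarith)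
  obtain ⟨b, hb, hb'⟩ := h.exists_lt v' (b := pp n v' + ε / 2) (by linarith)
  have := h.pp_le (h.rate_add ha hb)
  linarith

theorem SubAdd.pp_smul_le (h : SubAdd n) (c : ℝ) (hc : 0 < c) (v : Vec d) :
    pp n (c • v) ≤ c * pp n v := by
  refine le_of_forall_pos_le_add fun ε hε => ?_
  obtain ⟨a, ha, ha'⟩ := h.exists_lt v (b := pp n v + ε / c) (by
    have := div_pos hε hc
    linarith)
  have h1 := h.pp_le (rate_smul hc.le ha)
  have h2 : c * a ≤ c * (pp n v + ε / c) := mul_le_mul_of_nonneg_left ha'.le hc.le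
  have h3 : c * (pp n v + ε / c) = c * pp n v + ε := by field_simp
  linarith

theorem SubAdd.pp_smul (h : SubAdd n) (c : ℝ) (hc : 0 < c) (v : Vec d) :
    pp n (c • v) = c * pp n v := by
  refine le_antisymm (h.pp_smul_le c hc v) ?_
  have h1 := h.pp_smul_le c⁻¹ (inv_pos.2 hc) (c • v)
  rw [smul_smul, inv_mul_cancel₀ hc.ne', one_smul] at h1
  calc c * pp n v ≤ c * (c⁻¹ * pp n (c • v)) := mul_le_mul_of_nonneg_left h1 hc.le
    _ = _ := by field_simp

theorem SubAdd.pp_int (h : SubAdd n) (x : Site d) : pp n (toVec x) ≤ n x := h.pp_le (h.rate_int x)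

theorem SubAdd.pp_zero (h : SubAdd n) : pp n (0 : Vec d) = 0 := by
  have h1 := h.pp_smul 2 (by norm_num) (0 : Vec d)
  rw [smul_zero] at h1
  linarith

theorem SubAdd.exists_dual (h : SubAdd n) (s : Vec d) :
    ∃ g : Vec d, (∀ x, pair g x ≤ n x) ∧ ∑ i, g i * s i = pp n s := by
  classical
  obtain ⟨f, hf, hf'⟩ : ∃ f : Vec d →ₗ[ℝ] ℝ, f s = pp n s ∧ ∀ v, f v ≤ pp n v := by
    by_cases hs : s = 0
    · subst hs
      obtain ⟨g, -, hg⟩ := exists_extension_of_le_sublinear (⊥ : Vec d →ₗ.[ℝ] ℝ) (pp n)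
        h.pp_smul h.pp_add (by
          rintro ⟨x, hx⟩
          have hx0 : x = 0 := (Submodule.mem_bot ℝ).1 hx
          subst hx0
          have h0 := h.pp_zero
          have e1 : (⊥ : Vec d →ₗ.[ℝ] ℝ) ⟨0, hx⟩ = 0 := LinearPMap.map_zero _
          rw [e1]
          exact h0.ge)
      exact ⟨g, by simp [h.pp_zero], hg⟩
    · obtain ⟨g, hg1, hg2⟩ := exists_extension_of_le_sublinear
        (LinearPMap.mkSpanSingleton s (pp n s) hs) (pp n) h.pp_smul h.pp_add (by
          rintro ⟨x, hx⟩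
          obtain ⟨a, rfl⟩ := Submodule.mem_span_singleton.1 hx
          have e1 : (LinearPMap.mkSpanSingleton s (pp n s) hs) ⟨a • s, hx⟩ = a • pp n s :=
            LinearPMap.mkSpanSingleton'_apply _ _ _ _ _
          rw [e1, smul_eq_mul]
          show a * pp n s ≤ pp n (a • s)
          rcases lt_trichotomy a 0 with ha | ha | ha
          · have e2 := h.pp_add (a • s) ((-a) • s)
            rw [← add_smul, add_neg_cancel, zero_smul, h.pp_zero,
              h.pp_smul (-a) (by linarith)] at e2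
            linarith
          · subst ha
            simp [h.pp_zero]
          · rw [h.pp_smul a ha])
      refine ⟨g, ?_, hg2⟩
      have := hg1 ⟨s, Submodule.mem_span_singleton_self s⟩
      rw [this]
      exact LinearPMap.mkSpanSingleton'_apply_self _ _ _ _
  refine ⟨fun i => f (Pi.single i 1), fun x => ?_, ?_⟩
  · have hx : toVec x = ∑ i, (x i : ℝ) • (Pi.single i (1 : ℝ) : Vec d) := by
      funext j
      simp [toVec, Finset.sum_apply, Pi.single_apply]
    have e1 : pair (fun i => f (Pi.single i 1)) x = f (toVec x) := by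
      rw [hx, map_sum]
      simp only [pair, map_smul, smul_eq_mul]
      exact Finset.sum_congr rfl fun i _ => mul_comm _ _
    rw [e1]
    exact (hf' _).trans (h.pp_int x)
  · have hx : s = ∑ i, s i • (Pi.single i (1 : ℝ) : Vec d) := by
      funext j
      simp [Finset.sum_apply, Pi.single_apply]
    rw [← hf]
    conv_rhs => rw [hx]
    rw [map_sum]
    simp only [map_smul, smul_eq_mul]
    exact Finset.sum_congr rfl fun i _ => mul_comm _ _

end Pool.Agent.H725R3.KRW
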