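import Mathlib

set_option autoImplicit false
open scoped ENNReal NNReal Topology
open Filter Set

namespace Pool.Agent.H725R3.KRW

/-- the lattice `Z^d` -/
abbrev Site (d : ℕ) := Fin d → ℤ

/-- the space `R^d` -/
abbrev Vec (d : ℕ) := Fin d → ℝ

/-- the embedding `Z^d → R^d` -/
def toVec {d : ℕ} (x : Site d) : Vec d := fun i => (x i : ℝ)

/-- the lattice point `z` with `v ∈ z + [-1/2,1/2)^d` -/
noncomputable def latt {d : ℕ} (v : Vec d) : Site d := fun i => ⌊v i + 1 / 2⌋

/-- the total weight of all walks `γ = (γ_0,…,γ_n)` with `n` steps from `x` to `y` -/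
noncomputable def walkSum {d : ℕ} (J : Site d → ℝ) (lam : ℝ) (n : ℕ) (x y : Site d) : ℝ≥0∞ :=
  ∑' γ : {γ : Fin (n + 1) → Site d // γ 0 = x ∧ γ (Fin.last n) = y},
    ∏ i : Fin n, ENNReal.ofReal (lam * J (γ.1 i.succ - γ.1 i.castSucc))

/-- the two-point function `G_λ(x,y)` of the killed random walk: the sum over all finite walks -/
noncomputable def G {d : ℕ} (J : Site d → ℝ) (lam : ℝ) (x y : Site d) : ℝ≥0∞ :=
  ∑' n : ℕ, walkSum J lam n x y

/-- `n`-step weights, by recursion -/
noncomputable def w {d : ℕ} (J : Site d → ℝ) (lam : ℝ) : ℕ → Site d → ℝ≥0∞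
  | 0 => fun z => if z = 0 then 1 else 0
  | n + 1 => fun z => ∑' u, ENNReal.ofReal (lam * J u) * w J lam n (z - u)

open Classical in
theorem walkSum_ind {d : ℕ} (J : Site d → ℝ) (lam : ℝ) (n : ℕ) (x y : Site d) :
    walkSum J lam n x y = ∑' γ : Fin (n + 1) → Site d, if γ 0 = x ∧ γ (Fin.last n) = y then
      ∏ i : Fin n, ENNReal.ofReal (lam * J (γ i.succ - γ i.castSucc)) else 0 := by
  unfold walkSum
  have := tsum_subtype {γ : Fin (n + 1) → Site d | γ 0 = x ∧ γ (Fin.last n) = y}
    (fun γ => ∏ i : Fin n, ENNReal.ofReal (lam * J (γ i.succ - γ i.castSucc)))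
  refine Eq.trans this ?_
  refine tsum_congr fun γ => ?_
  simp only [Set.indicator, Set.mem_ofPred_eq]

theorem walkSum_eq {d : ℕ} (J : Site d → ℝ) (lam : ℝ) (n : ℕ) (x y : Site d) :
    walkSum J lam n x y = w J lam n (y - x) := by
  classical
  induction n generalizing x y with
  | zero =>
    rw [walkSum_ind, tsum_eq_single (fun _ => x)]
    · simp only [w, true_and]
      by_cases h : x = y
      · simp [h]
      · have : y - x ≠ 0 := fun h' => h (sub_eq_zero.1 h').symm
        simp [h, this]
    · intro γ hγ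
      rw [if_neg]
      rintro ⟨h1, -⟩
      apply hγ
      funext i
      rw [← h1]
      congr 1
      exact Fin.fin_one_eq_zero i
  | succ n ih =>
    rw [walkSum_ind]
    rw [← (Fin.consEquiv (fun _ : Fin (n + 2) => Site d)).tsum_eq]
    rw [ENNReal.tsum_prod', tsum_eq_single x]
    · simp only [w]
      have h1 : ∀ u : Site d, w J lam n (y - x - u) = walkSum J lam n (x + u) y := by
        intro u
        rw [ih]
        congr 1
        abel
      simp_rw [h1, walkSum_ind, ← ENNReal.tsum_mul_left]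
      rw [ENNReal.tsum_comm]
      refine tsum_congr fun γ => ?_
      rw [tsum_eq_single (γ 0 - x)]
      · simp only [Fin.consEquiv, Equiv.coe_fn_mk, Fin.cons_zero, true_and, add_sub_cancel]
        rw [← Fin.succ_last, Fin.cons_succ, mul_ite, mul_zero]
        refine if_congr Iff.rfl ?_ rfl
        rw [Fin.prod_univ_succ]
        simp [Fin.cons_succ]
      · intro u hu
        rw [if_neg, mul_zero]
        rintro ⟨h2, -⟩
        apply hu
        rw [h2]
        abel
    · intro a ha
      refine ENNReal.tsum_eq_zero.2 fun γ => ?_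
      rw [if_neg]
      rintro ⟨h2, -⟩
      apply ha
      simpa [Fin.consEquiv] using h2

theorem G_eq {d : ℕ} (J : Site d → ℝ) (lam : ℝ) (x y : Site d) :
    G J lam x y = ∑' n, w J lam n (y - x) := by
  unfold G
  simp_rw [walkSum_eq]

/-- the pairing `h · x` -/
def pair {d : ℕ} (h : Vec d) (x : Site d) : ℝ := ∑ i, h i * x i

theorem pair_add {d : ℕ} (h : Vec d) (x y : Site d) : pair h (x + y) = pair h x + pair h y := by
  simp [pair, mul_add, Finset.sum_add_distrib]

theorem pair_zero {d : ℕ} (h : Vec d) : pair h 0 = 0 := by simp [pair]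

/-- the Laplace transform of `J` -/
noncomputable def Jhat {d : ℕ} (J : Site d → ℝ) (h : Vec d) : ℝ≥0∞ :=
  ∑' x, ENNReal.ofReal (J x) * ENNReal.ofReal (Real.exp (pair h x))

theorem gen_w {d : ℕ} (J : Site d → ℝ) {lam : ℝ} (hlam : 0 ≤ lam) (h : Vec d) (n : ℕ) :
    ∑' z, w J lam n z * ENNReal.ofReal (Real.exp (pair h z)) =
      (ENNReal.ofReal lam * Jhat J h) ^ n := by
  classical
  induction n with
  | zero =>
    rw [tsum_eq_single 0]
    · simp [w, pair_zero]
    · intro z hz
      simp [w, hz]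
  | succ n ih =>
    simp only [w]
    simp_rw [← ENNReal.tsum_mul_right]
    rw [ENNReal.tsum_comm]
    have h1 : ∀ u : Site d, ∑' z, ENNReal.ofReal (lam * J u) * w J lam n (z - u) *
        ENNReal.ofReal (Real.exp (pair h z)) = ENNReal.ofReal lam * (ENNReal.ofReal (J u) *
        ENNReal.ofReal (Real.exp (pair h u))) * (ENNReal.ofReal lam * Jhat J h) ^ n := by
      intro u
      rw [← ih, ← ENNReal.tsum_mul_left, ← (Equiv.addRight u).tsum_eq]
      refine tsum_congr fun z => ?_
      simp only [Equiv.coe_addRight, add_sub_cancel_right]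
      rw [ENNReal.ofReal_mul hlam, pair_add, Real.exp_add, ENNReal.ofReal_mul (Real.exp_nonneg _)]
      ring
    simp_rw [h1]
    rw [ENNReal.tsum_mul_right, ENNReal.tsum_mul_left, pow_succ']
    rfl

theorem w_super {d : ℕ} (J : Site d → ℝ) (lam : ℝ) (n m : ℕ) (x y : Site d) :
    w J lam n x * w J lam m y ≤ w J lam (n + m) (x + y) := by
  classical
  induction n generalizing x with
  | zero =>
    by_cases hx : x = 0
    · simp [w, hx]
    · simp [w, hx]
  | succ n ih =>
    have : n + 1 + m = (n + m) + 1 := by ring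
    rw [this]
    simp only [w]
    rw [← ENNReal.tsum_mul_right]
    refine ENNReal.tsum_le_tsum fun u => ?_
    rw [mul_assoc]
    refine mul_le_mul_right ?_ _
    have := ih (x - u)
    rwa [show x - u + y = x + y - u by abel] at this

theorem w_one {d : ℕ} (J : Site d → ℝ) (lam : ℝ) (x : Site d) :
    w J lam 1 x = ENNReal.ofReal (lam * J x) := by
  classical
  simp only [w]
  rw [tsum_eq_single x]
  · simp
  · intro u hu
    rw [if_neg, mul_zero]
    intro h
    exact hu (sub_eq_zero.1 h).symm

theorem sum_G {d : ℕ} (J : Site d → ℝ) {lam : ℝ} (hlam : 0 ≤ lam) (h : Vec d) :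
    ∑' z, G J lam 0 z * ENNReal.ofReal (Real.exp (pair h z)) =
      (1 - ENNReal.ofReal lam * Jhat J h)⁻¹ := by
  simp_rw [G_eq, sub_zero, ← ENNReal.tsum_mul_right]
  rw [ENNReal.tsum_comm]
  simp_rw [gen_w J hlam h]
  exact ENNReal.tsum_geometric _

end Pool.Agent.H725R3.KRW
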